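import Mathlib

set_option autoImplicit false

/-! A parity count over the field with two elements. -/

namespace Run7.h493.Par

open Finset Matrix

/-- number of kernel vectors mod 2 is the determinant -/
theorem ker_count {n : Type*} [Fintype n] [DecidableEq n] (A : Matrix n n (ZMod 2)) :
    (∑ s : n → ZMod 2, if A *ᵥ s = 0 then (1 : ZMod 2) else 0) = A.det := by
  classical
  have h2 : ∀ x : ZMod 2, x = 0 ∨ x = 1 := by decide
  have h3 : ∀ x : ZMod 2, x + x = 0 := by decide
  rcases h2 A.det with h | h
  · rw [h]
    obtain ⟨w, hw, hA⟩ := Matrix.exists_mulVec_eq_zero_iff.2 h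
    refine Finset.sum_involution (fun s _ => s + w) ?_ ?_ ?_ ?_
    · intro s _
      have : (A *ᵥ (s + w) = 0) ↔ (A *ᵥ s = 0) := by
        rw [Matrix.mulVec_add, hA, add_zero]
      simp only [this]
      exact h3 _
    · intro s _ _ hs
      exact hw (by simpa using hs)
    · intro s _
      exact mem_univ _
    · intro s _
      funext i
      simp only [Pi.add_apply, add_assoc, h3, add_zero]
  · rw [h]
    rw [Finset.sum_eq_single (0 : n → ZMod 2)]
    · simp
    · intro s _ hs
      rw [if_neg]
      intro h0
      have := Matrix.exists_mulVec_eq_zero_iff.1 ⟨s, hs, h0⟩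
      rw [h] at this
      exact one_ne_zero this
    · intro hh
      exact absurd (mem_univ _) hh

variable {J : Type*} [Fintype J] [DecidableEq J]

/-- the matrix with `t j` times the standard alternating form in the diagonal block `j` -/
def AT (b : J → J → Fin 2 → Fin 2 → ZMod 2) (T : J → ZMod 2) :
    Matrix (J × Fin 2) (J × Fin 2) (ZMod 2) := fun p q =>
  if p.1 = q.1 then (if p.2 = q.2 then 0 else T p.1) else b p.1 q.1 p.2 q.2

/-- the permutation swapping the two elements of every block -/
def sw : Equiv.Perm (J × Fin 2) := Equiv.prodCongr (Equiv.refl J) (Equiv.swap 0 1)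

omit [Fintype J] [DecidableEq J] in
lemma sw_apply (j : J) (a : Fin 2) : sw (j, a) = (j, a + 1) := by
  simp only [sw, Equiv.prodCongr_apply, Prod.map_apply, Equiv.refl_apply]
  congr 1
  revert a; decide

theorem sum_det (b : J → J → Fin 2 → Fin 2 → ZMod 2)
    (hb : ∀ j j' a a', j ≠ j' → b j j' a a' = b j' j a' a) :
    (∑ T : J → ZMod 2, (AT b T).det) = 1 := by
  classical
  have h3 : ∀ x : ZMod 2, x + x = 0 := by decide
  have hsg : ∀ σ : Equiv.Perm (J × Fin 2), (((Equiv.Perm.sign σ : ℤˣ) : ℤ) : ZMod 2) = 1 := by
    intro σ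
    rcases Int.units_eq_one_or (Equiv.Perm.sign σ) with h | h <;> rw [h] <;> decide
  have hsymm : ∀ T p q, AT b T p q = AT b T q p := by
    intro T p q
    unfold AT
    by_cases h : p.1 = q.1
    · rw [if_pos h, if_pos h.symm, h]
      by_cases h' : p.2 = q.2
      · rw [if_pos h', if_pos h'.symm]
      · rw [if_neg h', if_neg (fun e => h' e.symm)]
    · rw [if_neg h, if_neg (fun e => h e.symm)]
      exact hb _ _ _ _ h
  have hdet : ∀ T, (AT b T).det = ∑ σ : Equiv.Perm (J × Fin 2), ∏ i, AT b T (σ i) i := by
    intro T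
    rw [Matrix.det_apply']
    refine Finset.sum_congr rfl (fun σ _ => ?_)
    rw [hsg, one_mul]
  simp only [hdet]
  rw [Finset.sum_comm]
  have hsw : ∀ p : J × Fin 2, sw (sw p) = p := by
    rintro ⟨j, a⟩
    have h11 : ∀ a : Fin 2, a + 1 + 1 = a := by decide
    rw [sw_apply, sw_apply, h11]
  have hswinv : (sw : Equiv.Perm (J × Fin 2))⁻¹ = sw := by
    ext p : 1
    rw [Equiv.Perm.inv_eq_iff_eq]
    exact (hsw p).symm
  -- vanishing when some block is not used
  have hvan : ∀ σ : Equiv.Perm (J × Fin 2), ∀ j, (∀ a, σ (j, a) ≠ (j, a + 1)) →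
      (∑ T : J → ZMod 2, ∏ i, AT b T (σ i) i) = 0 := by
    intro σ j hj
    refine Finset.sum_involution (fun T _ => Function.update T j (T j + 1)) ?_ ?_ ?_ ?_
    · intro T _
      have : ∏ i, AT b (Function.update T j (T j + 1)) (σ i) i = ∏ i, AT b T (σ i) i := by
        refine Finset.prod_congr rfl (fun i _ => ?_)
        unfold AT
        by_cases h : (σ i).1 = i.1
        · rw [if_pos h, if_pos h]
          by_cases h' : (σ i).2 = i.2
          · rw [if_pos h', if_pos h']
          · rw [if_neg h', if_neg h']
            by_cases hji : i.1 = j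
            · exfalso
              apply hj i.2
              have e1 : (j, i.2) = i := by rw [← hji]
              rw [e1]
              have h'' : (σ i).2 = i.2 + 1 := by
                revert h'
                generalize (σ i).2 = x
                generalize i.2 = y
                revert x y; decide
              exact Prod.ext (h.trans hji) h''
            · rw [Function.update_of_ne]
              rw [h]; exact hji
        · rw [if_neg h, if_neg h]
      rw [this]
      exact h3 _
    · intro T _ _ h
      have := congrFun h j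
      rw [Function.update_self] at this
      simp at this
    · intro T _
      exact mem_univ _
    · intro T _
      funext i
      by_cases h : i = j
      · subst h
        simp only [Function.update_self, add_assoc, h3, add_zero]
      · rw [Function.update_of_ne h, Function.update_of_ne h]
  rw [← Finset.add_sum_erase _ _ (mem_univ (sw : Equiv.Perm (J × Fin 2)))]
  have hz : ∑ x ∈ Finset.univ.erase (sw : Equiv.Perm (J × Fin 2)),
      ∑ T : J → ZMod 2, ∏ i, AT b T (x i) i = 0 := by
    refine Finset.sum_involution (fun σ _ => σ⁻¹) ?_ ?_ ?_ ?_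
    · intro σ _
      have : ∑ T : J → ZMod 2, ∏ i, AT b T (σ⁻¹ i) i
          = ∑ T : J → ZMod 2, ∏ i, AT b T (σ i) i := by
        refine Finset.sum_congr rfl (fun T _ => ?_)
        rw [← Equiv.prod_comp σ]
        refine Finset.prod_congr rfl (fun i _ => ?_)
        have e0 : σ⁻¹ (σ i) = i := by simp
        rw [e0]
        exact hsymm _ _ _
      rw [this]
      exact h3 _
    · intro σ hσ hne hinv
      apply hne
      have hσ' : σ ≠ sw := (Finset.mem_erase.1 hσ).1
      have hii : ∀ p, σ (σ p) = p := by
        intro p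
        have := congrArg (fun τ : Equiv.Perm (J × Fin 2) => τ (σ p)) hinv
        simpa using this.symm
      by_contra hcon
      apply hσ'
      have hall : ∀ j, ∃ a, σ (j, a) = (j, a + 1) := by
        intro j
        by_contra hj
        push Not at hj
        exact hcon (hvan σ j hj)
      ext1 p
      obtain ⟨j, a⟩ := p
      rw [sw_apply]
      obtain ⟨a', ha'⟩ := hall j
      have h11 : ∀ a : Fin 2, a + 1 + 1 = a := by decide
      have h12 : ∀ a a' : Fin 2, ¬ a = a' → a = a' + 1 := by decide
      by_cases haa : a = a'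
      · rw [haa]; exact ha'
      · have e : a = a' + 1 := h12 _ _ haa
        have : σ (j, a' + 1) = (j, a') := by
          rw [← ha']; exact hii _
        rw [e, this, h11]
    · intro σ hσ
      have hσ' : σ ≠ sw := (Finset.mem_erase.1 hσ).1
      refine Finset.mem_erase.2 ⟨fun h => hσ' ?_, mem_univ _⟩
      rw [← hswinv] at h
      exact inv_injective h
    · intro σ _
      exact inv_inv σ
  rw [hz, add_zero]
  have hterm : ∀ T : J → ZMod 2, ∏ i, AT b T (sw i) i = ∏ j, T j := by
    intro T
    rw [Fintype.prod_prod_type]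
    refine Finset.prod_congr rfl (fun j _ => ?_)
    have h4 : ∀ x : ZMod 2, x * x = x := by decide
    rw [Fin.prod_univ_two]
    have e0 : AT b T (sw (j, 0)) (j, 0) = T j := by
      rw [sw_apply]; unfold AT; simp
    have e1 : AT b T (sw (j, 1)) (j, 1) = T j := by
      rw [sw_apply]; unfold AT; simp
    rw [e0, e1, h4]
  simp only [hterm]
  have := Finset.prod_univ_sum (fun _ : J => (Finset.univ : Finset (ZMod 2))) (fun _ x => x)
  rw [Fintype.piFinset_univ] at this
  rw [← this]
  have h5 : (∑ x : ZMod 2, x) = 1 := by decide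
  simp [h5]

/-- linear form in block `j` coming from the other blocks -/
def Lf (b : J → J → Fin 2 → Fin 2 → ZMod 2) (s : J → Fin 2 → ZMod 2) (j : J) (a : Fin 2) :
    ZMod 2 :=
  ∑ j' ∈ Finset.univ.erase j, ∑ a', b j j' a a' * s j' a'

theorem odd_count (b : J → J → Fin 2 → Fin 2 → ZMod 2)
    (hb : ∀ j j' a a', j ≠ j' → b j j' a a' = b j' j a' a) :
    (∑ s : J → Fin 2 → ZMod 2,
      ∏ j, (if s j ≠ 0 ∧ ∑ a, s j a * Lf b s j a = 0 then (1 : ZMod 2) else 0)) = 1 := by
  classical
  refine Eq.trans ?_ (sum_det b hb)
  simp only [← ker_count]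
  -- rewrite the inner sums over curried vectors
  have e1 : ∀ T : J → ZMod 2, (∑ s : J × Fin 2 → ZMod 2, if AT b T *ᵥ s = 0 then (1 : ZMod 2) else 0)
      = ∑ s : J → Fin 2 → ZMod 2, if AT b T *ᵥ (fun p => s p.1 p.2) = 0 then (1 : ZMod 2) else 0 := by
    intro T
    rw [← Equiv.sum_comp (Equiv.curry J (Fin 2) (ZMod 2)).symm]
    rfl
  simp only [e1]
  rw [Finset.sum_comm]
  refine Finset.sum_congr rfl (fun s _ => ?_)
  have e2 : ∀ T : J → ZMod 2, (AT b T *ᵥ (fun p => s p.1 p.2) = 0) ↔
      ∀ j, ∀ a, T j * s j (a + 1) + Lf b s j a = 0 := by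
    intro T
    rw [funext_iff, Prod.forall]
    refine forall_congr' (fun j => forall_congr' (fun a => ?_))
    have : (AT b T *ᵥ fun p => s p.1 p.2) (j, a) = T j * s j (a + 1) + Lf b s j a := by
      rw [Matrix.mulVec, dotProduct, Fintype.sum_prod_type,
        ← Finset.add_sum_erase _ _ (mem_univ j)]
      congr 1
      · rw [Fin.sum_univ_two]
        unfold AT
        fin_cases a <;> simp
      · unfold Lf
        refine Finset.sum_congr rfl (fun j' hj' => ?_)
        refine Finset.sum_congr rfl (fun a' _ => ?_)
        have : j ≠ j' := fun h => (Finset.mem_erase.1 hj').1 h.symm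
        unfold AT
        rw [if_neg this]
    rw [this]
    rfl
  have e3 : ∀ T : J → ZMod 2, (if AT b T *ᵥ (fun p => s p.1 p.2) = 0 then (1 : ZMod 2) else 0)
      = ∏ j, if (∀ a, T j * s j (a + 1) + Lf b s j a = 0) then (1 : ZMod 2) else 0 := by
    intro T
    rw [Finset.prod_ite_zero]
    simp only [e2, Finset.mem_univ, true_imp_iff, Finset.prod_const_one]
  simp only [e3]
  have := Finset.prod_univ_sum (fun _ : J => (Finset.univ : Finset (ZMod 2)))
    (fun j x => if (∀ a, x * s j (a + 1) + Lf b s j a = 0) then (1 : ZMod 2) else 0)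
  rw [Fintype.piFinset_univ] at this
  rw [← this]
  refine Finset.prod_congr rfl (fun j _ => ?_)
  have key : ∀ u v : Fin 2 → ZMod 2, (if u ≠ 0 ∧ ∑ a, u a * v a = 0 then (1 : ZMod 2) else 0)
      = ∑ x : ZMod 2, if (∀ a, x * u (a + 1) + v a = 0) then (1 : ZMod 2) else 0 := by
    decide
  exact key (s j) (Lf b s j)

end Run7.h493.Par
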