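import Mathlib
import Pool.Agent.Run7.h493.Par

set_option autoImplicit false

/-! Cycle-plus-triangles theorem, path form: if the vertex set `J × Fin 3` is listed in a row,
there is a colouring with three colours, a bijection on every block, in which consecutive
vertices get different colours. -/

namespace Run7.h493.FS

open Finset

/-- the coordinate number `b` of the `a`-th nonzero vector of the plane over `ZMod 2` -/
def chi (a : Fin 3) (b : ZMod 2) : ZMod 2 := if a = 0 then b else if a = 1 then 1 + b else 1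

set_option maxRecDepth 100000 in
lemma pattern : ∀ α β : Fin 3 → ZMod 2,
    (∑ π : Equiv.Perm (Fin 3), ∏ i, (chi (π i) (α i) * chi (π i) (1 + β i))) =
      if ((∃ i, α i + β i ≠ 0) ∧ ∑ i, (α i + β i) = 0 ∧ ∑ i, (α i + β i) * α i = 1)
        then 1 else 0 := by
  decide

variable {J : Type*} [Fintype J] [DecidableEq J] {n : ℕ}

lemma z3 : ∀ x : ZMod 2, x + x = 0 := by decide

/-- the term of the expansion -/
def term (e : J × Fin 3 ≃ Fin n) (O : Fin (n + 1) → ZMod 2) (π : J → Equiv.Perm (Fin 3)) :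
    ZMod 2 :=
  O 0 * O (Fin.last n) *
    ∏ v : J × Fin 3, (chi (π v.1 v.2) (O (e v).succ) * chi (π v.1 v.2) (1 + O (e v).castSucc))

omit [DecidableEq J] in
lemma term_zero (e : J × Fin 3 ≃ Fin n) (π : J → Equiv.Perm (Fin 3)) (v w : J × Fin 3)
    (hvw : (e w : ℕ) = (e v : ℕ) + 1) (hc : π v.1 v.2 = π w.1 w.2) :
    ∑ O : Fin (n + 1) → ZMod 2, term e O π = 0 := by
  classical
  set i : Fin (n + 1) := (e v).succ with hi
  have hi' : i = (e w).castSucc := by
    ext
    simp [hi, hvw]
  have hi0 : (0 : Fin (n + 1)) ≠ i := by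
    rw [hi]
    exact (Fin.succ_ne_zero _).symm
  have hil : Fin.last n ≠ i := by
    rw [hi']
    exact (Fin.castSucc_lt_last _).ne'
  refine Finset.sum_involution (fun O _ => Function.update O i (O i + 1)) ?_ ?_ ?_ ?_
  · intro O _
    suffices h : term e (Function.update O i (O i + 1)) π = term e O π by
      rw [h]; exact z3 _
    unfold term
    rw [Function.update_of_ne hi0, Function.update_of_ne hil]
    congr 1
    rw [Finset.prod_mul_distrib, Finset.prod_mul_distrib,
      ← Finset.mul_prod_erase _ _ (Finset.mem_univ v), ← Finset.mul_prod_erase (Finset.univ)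
        (fun x : J × Fin 3 => chi (π x.1 x.2) (1 + Function.update O i (O i + 1) (e x).castSucc))
        (Finset.mem_univ w),
      ← Finset.mul_prod_erase (Finset.univ)
        (fun x : J × Fin 3 => chi (π x.1 x.2) (O (e x).succ)) (Finset.mem_univ v),
      ← Finset.mul_prod_erase (Finset.univ)
        (fun x : J × Fin 3 => chi (π x.1 x.2) (1 + O (e x).castSucc))
        (Finset.mem_univ w)]
    have h1 : ∏ x ∈ Finset.univ.erase v,
        chi (π x.1 x.2) (Function.update O i (O i + 1) (e x).succ)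
        = ∏ x ∈ Finset.univ.erase v, chi (π x.1 x.2) (O (e x).succ) := by
      refine Finset.prod_congr rfl (fun x hx => ?_)
      rw [Function.update_of_ne]
      intro h
      apply (Finset.mem_erase.1 hx).1
      rw [hi] at h
      exact e.injective (Fin.succ_injective _ h)
    have h2 : ∏ x ∈ Finset.univ.erase w,
        chi (π x.1 x.2) (1 + Function.update O i (O i + 1) (e x).castSucc)
        = ∏ x ∈ Finset.univ.erase w, chi (π x.1 x.2) (1 + O (e x).castSucc) := by
      refine Finset.prod_congr rfl (fun x hx => ?_)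
      rw [Function.update_of_ne]
      intro h
      apply (Finset.mem_erase.1 hx).1
      rw [hi'] at h
      exact e.injective (Fin.castSucc_injective _ h)
    rw [h1, h2, ← hi, ← hi', Function.update_self, hc]
    have h3 : ∀ x : ZMod 2, 1 + (x + 1) = x := by decide
    rw [h3, add_comm (O i) 1]
    ring
  · intro O _ _ h
    have := congrFun h i
    rw [Function.update_self] at this
    simp at this
  · intro O _
    exact mem_univ _
  · intro O _
    funext k
    by_cases h : k = i
    · subst h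
      simp only [Function.update_self, add_assoc, z3, add_zero]
    · rw [Function.update_of_ne h, Function.update_of_ne h]

/-- embedding of the plane as even weight vectors -/
def M (i : Fin 3) (a : Fin 2) : ZMod 2 :=
  if i = 2 then 1 else if (i : ℕ) = (a : ℕ) then 1 else 0

/-- the vector of block `j` -/
def sv (τ : J → Fin 2 → ZMod 2) (v : J × Fin 3) : ZMod 2 := ∑ a, M v.2 a * τ v.1 a

/-- orientation obtained from `τ` -/
def Ot (e : J × Fin 3 ≃ Fin n) (τ : J → Fin 2 → ZMod 2) (k : Fin (n + 1)) : ZMod 2 :=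
  1 + ∑ v : J × Fin 3, if (e v : ℕ) < (k : ℕ) then sv τ v else 0

/-- the bilinear forms -/
def bf (e : J × Fin 3 ≃ Fin n) (j j' : J) (a a' : Fin 2) : ZMod 2 :=
  ∑ i, ∑ i', M i a * (if (e (j', i') : ℕ) < (e (j, i) : ℕ) then 1 else 0) * M i' a'

omit [Fintype J] [DecidableEq J] in
lemma bf_symm (e : J × Fin 3 ≃ Fin n) (j j' : J) (a a' : Fin 2) (h : j ≠ j') :
    bf e j j' a a' = bf e j' j a' a := by
  have h1 : bf e j j' a a' + bf e j' j a' a = 0 := by
    unfold bf
    rw [Finset.sum_comm (γ := Fin 3) (f := fun i i' => M i a' *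
      (if (e (j, i') : ℕ) < (e (j', i) : ℕ) then 1 else 0) * M i' a), ← Finset.sum_add_distrib]
    have : ∀ i i', M i a * (if (e (j', i') : ℕ) < (e (j, i) : ℕ) then 1 else 0) * M i' a'
        + M i' a' * (if (e (j, i) : ℕ) < (e (j', i') : ℕ) then 1 else 0) * M i a
        = M i a * M i' a' := by
      intro i i'
      have hne : (e (j, i) : ℕ) ≠ (e (j', i') : ℕ) := by
        intro hh
        have := e.injective (Fin.ext hh)
        exact h (congrArg Prod.fst this)
      rcases lt_or_gt_of_ne hne with hlt | hlt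
      · rw [if_neg (not_lt.2 hlt.le), if_pos hlt]; ring
      · rw [if_pos hlt, if_neg (not_lt.2 hlt.le)]; ring
    have h2 : ∀ i, (∑ i', M i a * (if (e (j', i') : ℕ) < (e (j, i) : ℕ) then 1 else 0) * M i' a')
        + (∑ i', M i' a' * (if (e (j, i) : ℕ) < (e (j', i') : ℕ) then 1 else 0) * M i a)
        = M i a * ∑ i', M i' a' := by
      intro i
      rw [← Finset.sum_add_distrib, Finset.mul_sum]
      exact Finset.sum_congr rfl (fun i' _ => this i i')
    rw [Finset.sum_congr rfl (fun i _ => h2 i), ← Finset.sum_mul]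
    have h3 : ∀ a : Fin 2, ∑ i, M i a = 0 := by decide
    rw [h3, zero_mul]
  have h4 : ∀ x y : ZMod 2, x + y = 0 → x = y := by decide
  exact h4 _ _ h1

omit [DecidableEq J] in
lemma Ot_zero (e : J × Fin 3 ≃ Fin n) (τ : J → Fin 2 → ZMod 2) : Ot e τ 0 = 1 := by
  simp [Ot]

omit [DecidableEq J] in
lemma Ot_succ (e : J × Fin 3 ≃ Fin n) (τ : J → Fin 2 → ZMod 2) (v : J × Fin 3) :
    Ot e τ (e v).succ = Ot e τ (e v).castSucc + sv τ v := by
  classical
  unfold Ot
  rw [add_assoc]
  congr 1
  have : ∀ w : J × Fin 3, (if (e w : ℕ) < ((e v).succ : ℕ) then sv τ w else 0)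
      = (if (e w : ℕ) < ((e v).castSucc : ℕ) then sv τ w else 0) + (if w = v then sv τ w else 0) := by
    intro w
    by_cases h : w = v
    · subst h
      simp
    · have : (e w : ℕ) ≠ (e v : ℕ) := fun hh => h (e.injective (Fin.ext hh))
      rw [if_neg h, add_zero]
      simp only [Fin.val_succ, Fin.val_castSucc]
      congr 1
      apply propext
      omega
  rw [Finset.sum_congr rfl (fun w _ => this w), Finset.sum_add_distrib]
  congr 1
  simp

omit [Fintype J] [DecidableEq J] in
lemma sv_sum (τ : J → Fin 2 → ZMod 2) (j : J) : ∑ i, sv τ (j, i) = 0 := by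
  unfold sv
  rw [Finset.sum_comm]
  simp only [← Finset.sum_mul]
  have h3 : ∀ a : Fin 2, ∑ i, M i a = 0 := by decide
  simp [h3]

omit [DecidableEq J] in
lemma Ot_last (e : J × Fin 3 ≃ Fin n) (τ : J → Fin 2 → ZMod 2) : Ot e τ (Fin.last n) = 1 := by
  unfold Ot
  have : ∀ w : J × Fin 3, (if (e w : ℕ) < ((Fin.last n : Fin (n + 1)) : ℕ) then sv τ w else 0)
      = sv τ w := by
    intro w
    rw [if_pos]
    simp
  rw [Finset.sum_congr rfl (fun w _ => this w), Fintype.sum_prod_type]
  simp [sv_sum]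

omit [Fintype J] [DecidableEq J] in
lemma sv_ne (τ : J → Fin 2 → ZMod 2) (j : J) : (∃ i, sv τ (j, i) ≠ 0) ↔ τ j ≠ 0 := by
  have key : ∀ t : Fin 2 → ZMod 2, (∃ i, (∑ a, M i a * t a) ≠ 0) ↔ t ≠ 0 := by decide
  exact key (τ j)

lemma quad (e : J × Fin 3 ≃ Fin n) (τ : J → Fin 2 → ZMod 2) (j : J) :
    ∑ i, sv τ (j, i) * Ot e τ (e (j, i)).succ
      = (if τ j ≠ 0 then 1 else 0) + ∑ a, τ j a * Par.Lf (bf e) τ j a := by
  have hself : ∑ i, ∑ i', (if (e (j, i') : ℕ) < (e (j, i) : ℕ) then (1 : ZMod 2) else 0)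
      * (sv τ (j, i) * sv τ (j, i')) = if τ j ≠ 0 then 1 else 0 := by
    have hp : ∀ i i' : Fin 3, i ≠ i' →
        (if (e (j, i') : ℕ) < (e (j, i) : ℕ) then (1 : ZMod 2) else 0)
        = 1 + (if (e (j, i) : ℕ) < (e (j, i') : ℕ) then (1 : ZMod 2) else 0) := by
      intro i i' hii
      have hne : (e (j, i) : ℕ) ≠ (e (j, i') : ℕ) := by
        intro hh
        have := e.injective (Fin.ext hh)
        exact hii (congrArg Prod.snd this)
      rcases lt_or_gt_of_ne hne with hlt | hlt
      · rw [if_neg (not_lt.2 hlt.le), if_pos hlt]; rfl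
      · rw [if_pos hlt, if_neg (not_lt.2 hlt.le)]; rfl
    have key : ∀ t : Fin 2 → ZMod 2, ∀ x y z : ZMod 2,
        (let s : Fin 3 → ZMod 2 := fun i => ∑ a, M i a * t a
         (x * (s 0 * s 1) + (1 + x) * (s 1 * s 0)) + (y * (s 0 * s 2) + (1 + y) * (s 2 * s 0))
          + (z * (s 1 * s 2) + (1 + z) * (s 2 * s 1))) = if t ≠ 0 then 1 else 0 := by
      decide
    have k := key (τ j) (if (e (j, 1) : ℕ) < (e (j, 0) : ℕ) then (1 : ZMod 2) else 0)
      (if (e (j, 2) : ℕ) < (e (j, 0) : ℕ) then (1 : ZMod 2) else 0)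
      (if (e (j, 2) : ℕ) < (e (j, 1) : ℕ) then (1 : ZMod 2) else 0)
    rw [← k]
    simp only [Fin.sum_univ_three]
    rw [hp 1 0 (by decide), hp 2 0 (by decide), hp 2 1 (by decide)]
    simp only [lt_irrefl, if_false, zero_mul, zero_add, add_zero]
    unfold sv
    ring
  have hother : ∀ j' ∈ Finset.univ.erase j,
      ∑ i, ∑ i', (if (e (j', i') : ℕ) < (e (j, i) : ℕ) then (1 : ZMod 2) else 0)
      * (sv τ (j, i) * sv τ (j', i')) = ∑ a, τ j a * ∑ a', bf e j j' a a' * τ j' a' := by
    intro j' _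
    unfold bf sv
    simp only [Fin.sum_univ_three, Fin.sum_univ_two]
    ring
  have h1 : ∑ i, sv τ (j, i) * Ot e τ (e (j, i)).succ
      = ∑ i, sv τ (j, i) * ∑ w : J × Fin 3, (if (e w : ℕ) < (e (j, i) : ℕ) then sv τ w else 0) := by
    have h2 : ∀ i, sv τ (j, i) * Ot e τ (e (j, i)).succ
        = sv τ (j, i) * ∑ w : J × Fin 3, (if (e w : ℕ) < (e (j, i) : ℕ) then sv τ w else 0) := by
      intro i
      rw [Ot_succ]
      unfold Ot
      simp only [Fin.val_castSucc]
      have h4 : ∀ x y : ZMod 2, x * (1 + y + x) = x * y := by decide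
      exact h4 _ _
    exact Finset.sum_congr rfl (fun i _ => h2 i)
  have h5 : ∀ i, sv τ (j, i) *
      (∑ w : J × Fin 3, (if (e w : ℕ) < (e (j, i) : ℕ) then sv τ w else 0))
      = ∑ j', ∑ i', (if (e (j', i') : ℕ) < (e (j, i) : ℕ) then (1 : ZMod 2) else 0)
      * (sv τ (j, i) * sv τ (j', i')) := by
    intro i
    rw [Fintype.sum_prod_type, Finset.mul_sum]
    refine Finset.sum_congr rfl (fun j' _ => ?_)
    rw [Finset.mul_sum]
    refine Finset.sum_congr rfl (fun i' _ => ?_)
    split_ifs <;> simp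
  rw [h1, Finset.sum_congr rfl (fun i _ => h5 i), Finset.sum_comm,
    ← Finset.add_sum_erase _ _ (Finset.mem_univ j), hself, Finset.sum_congr rfl hother]
  congr 1
  rw [Finset.sum_comm]
  refine Finset.sum_congr rfl (fun a _ => ?_)
  unfold Par.Lf
  rw [Finset.mul_sum]

lemma sum_one (e : J × Fin 3 ≃ Fin n) :
    ∑ O : Fin (n + 1) → ZMod 2, ∑ π : J → Equiv.Perm (Fin 3), term e O π = 1 := by
  classical
  have h1 : ∀ O : Fin (n + 1) → ZMod 2, ∑ π : J → Equiv.Perm (Fin 3), term e O π
      = O 0 * O (Fin.last n) * ∏ j, (if ((∃ i, O (e (j, i)).succ + O (e (j, i)).castSucc ≠ 0)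
        ∧ ∑ i, (O (e (j, i)).succ + O (e (j, i)).castSucc) = 0
        ∧ ∑ i, (O (e (j, i)).succ + O (e (j, i)).castSucc) * O (e (j, i)).succ = 1)
        then (1 : ZMod 2) else 0) := by
    intro O
    unfold term
    rw [← Finset.mul_sum]
    congr 1
    have := Finset.prod_univ_sum (fun _ : J => (Finset.univ : Finset (Equiv.Perm (Fin 3))))
      (fun j π => ∏ i, (chi (π i) (O (e (j, i)).succ) * chi (π i) (1 + O (e (j, i)).castSucc)))
    rw [Fintype.piFinset_univ] at this
    simp only [Fintype.prod_prod_type]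
    rw [← this]
    refine Finset.prod_congr rfl (fun j _ => ?_)
    exact pattern (fun i => O (e (j, i)).succ) (fun i => O (e (j, i)).castSucc)
  simp only [h1]
  refine Eq.trans ?_ (Par.odd_count (bf e) (fun j j' a a' h => bf_symm e j j' a a' h))
  symm
  have hdiff : ∀ τ v, Ot e τ (e v).succ + Ot e τ (e v).castSucc = sv τ v := by
    intro τ v
    rw [Ot_succ]
    have h4 : ∀ x y : ZMod 2, x + y + x = y := by decide
    exact h4 _ _
  refine Finset.sum_of_injOn (Ot e) ?_ ?_ ?_ ?_
  · intro τ _ τ' _ h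
    funext j a
    have h2 : ∀ v, sv τ v = sv τ' v := by
      intro v
      rw [← hdiff, ← hdiff, h]
    have e0 : ∀ (σ : J → Fin 2 → ZMod 2), σ j 0 = sv σ (j, 0) ∧ σ j 1 = sv σ (j, 1) := by
      intro σ
      simp [sv, M]
    fin_cases a
    · exact (e0 τ).1.trans ((h2 _).trans (e0 τ').1.symm)
    · exact (e0 τ).2.trans ((h2 _).trans (e0 τ').2.symm)
  · intro τ _
    exact Finset.mem_coe.2 (mem_univ _)
  · intro O _ hO
    by_contra hne
    apply hO
    have h0 : O 0 ≠ 0 := fun h => hne (by rw [h]; ring)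
    have h01 : O 0 = 1 := by
      revert h0; generalize O 0 = x; revert x; decide
    have hj : ∀ j, ∑ i, (O (e (j, i)).succ + O (e (j, i)).castSucc) = 0 := by
      intro j
      by_contra hcon
      apply hne
      have : ∏ j, (if ((∃ i, O (e (j, i)).succ + O (e (j, i)).castSucc ≠ 0)
        ∧ ∑ i, (O (e (j, i)).succ + O (e (j, i)).castSucc) = 0
        ∧ ∑ i, (O (e (j, i)).succ + O (e (j, i)).castSucc) * O (e (j, i)).succ = 1)
        then (1 : ZMod 2) else 0) = 0 := by
        apply Finset.prod_eq_zero (mem_univ j)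
        rw [if_neg]
        exact fun h => hcon h.2.1
      rw [this, mul_zero]
    let τ : J → Fin 2 → ZMod 2 := fun j a =>
      O (e (j, a.castSucc)).succ + O (e (j, a.castSucc)).castSucc
    have hτ : ∀ v, sv τ v = O (e v).succ + O (e v).castSucc := by
      rintro ⟨j, i⟩
      have hs := hj j
      have key : ∀ f : Fin 3 → ZMod 2, ∑ i, f i = 0 → ∀ i, ∑ a : Fin 2, M i a * f a.castSucc = f i := by
        decide
      exact key (fun i => O (e (j, i)).succ + O (e (j, i)).castSucc) hs i
    refine ⟨τ, by simp, ?_⟩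
    funext k
    induction k using Fin.induction with
    | zero => rw [Ot_zero, h01]
    | succ k ih =>
      obtain ⟨v, rfl⟩ := e.surjective k
      rw [Ot_succ, ih, hτ]
      have h4 : ∀ x y : ZMod 2, x + (y + x) = y := by decide
      exact h4 _ _
  · intro τ _
    rw [Ot_zero, Ot_last, one_mul, one_mul]
    refine Finset.prod_congr rfl (fun j _ => ?_)
    simp only [hdiff, quad, sv_sum, sv_ne]
    by_cases h : τ j = 0
    · rw [if_neg (fun hh => hh.1 h), if_neg (fun hh => hh.1 h)]
    · simp only [ne_eq, h, not_false_eq_true, true_and, if_true]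
      congr 1
      apply propext
      constructor
      · intro hh; rw [hh, add_zero]
      · intro hh
        revert hh
        generalize (∑ a, τ j a * Par.Lf (bf e) τ j a) = x
        revert x; decide

/-- **Cycle-plus-triangles theorem**, path form. -/
theorem exists_colouring (e : J × Fin 3 ≃ Fin n) :
    ∃ π : J → Equiv.Perm (Fin 3), ∀ v w : J × Fin 3, (e w : ℕ) = (e v : ℕ) + 1 →
      π v.1 v.2 ≠ π w.1 w.2 := by
  by_contra hcon
  push Not at hcon
  have h := sum_one e
  rw [Finset.sum_comm] at h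
  have h0 : ∑ π : J → Equiv.Perm (Fin 3), ∑ O : Fin (n + 1) → ZMod 2, term e O π = 0 := by
    apply Finset.sum_eq_zero
    intro π _
    obtain ⟨v, w, hvw, hc⟩ := hcon π
    exact term_zero e π v w hvw hc
  rw [h0] at h
  exact zero_ne_one h

end Run7.h493.FS
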