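import Mathlib
import Pool.Agent.Run7.h493.FS

set_option autoImplicit false

/-! Linear forests can be listed in a row; graph form of the cycle-plus-triangles theorem. -/

namespace Run7.h493.LF

open Finset

variable {X : Type*} [DecidableEq X]

/-- A linear forest can be listed in a row. -/
theorem rank (K : X → X → Prop) (hsymm : ∀ u v, K u v → K v u) (hirr : ∀ u, ¬ K u u)
    (hdeg : ∀ u a b c, K u a → K u b → K u c → a = b ∨ a = c ∨ b = c)
    (hac : ∀ S : Finset X, S.Nonempty → ∃ v ∈ S, ∀ a ∈ S, ∀ b ∈ S, K v a → K v b → a = b)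
    (m : ℕ) : ∀ S : Finset X, S.card = m → ∃ r : X → ℕ, Set.InjOn r S ∧ (∀ x ∈ S, r x < m) ∧
      ∀ u ∈ S, ∀ v ∈ S, K u v → r u = r v + 1 ∨ r v = r u + 1 := by
  classical
  induction m with
  | zero =>
    intro S hS
    rw [Finset.card_eq_zero] at hS
    subst hS
    exact ⟨fun _ => 0, by simp, by simp, by simp⟩
  | succ m ih =>
    intro S hS
    have hne : S.Nonempty := by
      rw [← Finset.card_pos, hS]; omega
    obtain ⟨v, hv, hv1⟩ := hac S hne
    obtain ⟨r, hinj, hlt, hr⟩ := ih (S.erase v) (by rw [Finset.card_erase_of_mem hv, hS]; omega)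
    -- insertion at position `p`
    have ins : ∀ p : ℕ, p ≤ m → (∀ a ∈ S.erase v, ∀ b ∈ S.erase v, K a b → r a + 1 = p →
        r b = p → False) →
        (∀ a ∈ S.erase v, K v a → (r a = p) ∨ r a + 1 = p) →
        ∃ r : X → ℕ, Set.InjOn r S ∧ (∀ x ∈ S, r x < m + 1) ∧
        ∀ u ∈ S, ∀ v ∈ S, K u v → r u = r v + 1 ∨ r v = r u + 1 := by
      intro p hp hbr hva
      refine ⟨fun x => if x = v then p else if r x < p then r x else r x + 1, ?_, ?_, ?_⟩
      · intro x hx y hy hxy
        simp only at hxy
        by_cases hxv : x = v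
        · by_cases hyv : y = v
          · rw [hxv, hyv]
          · rw [if_pos hxv, if_neg hyv] at hxy
            exfalso
            split_ifs at hxy <;> omega
        · by_cases hyv : y = v
          · rw [if_neg hxv, if_pos hyv] at hxy
            exfalso
            split_ifs at hxy <;> omega
          · rw [if_neg hxv, if_neg hyv] at hxy
            have hx' : x ∈ S.erase v := Finset.mem_erase.2 ⟨hxv, hx⟩
            have hy' : y ∈ S.erase v := Finset.mem_erase.2 ⟨hyv, hy⟩
            apply hinj hx' hy'
            split_ifs at hxy <;> omega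
      · intro x hx
        simp only
        by_cases hxv : x = v
        · rw [if_pos hxv]; omega
        · rw [if_neg hxv]
          have := hlt x (Finset.mem_erase.2 ⟨hxv, hx⟩)
          split_ifs <;> omega
      · intro x hx y hy hxy
        simp only
        by_cases hxv : x = v
        · by_cases hyv : y = v
          · rw [hxv, hyv] at hxy
            exact absurd hxy (hirr v)
          · rw [if_pos hxv, if_neg hyv]
            have hy' : y ∈ S.erase v := Finset.mem_erase.2 ⟨hyv, hy⟩
            rw [hxv] at hxy
            have := hva y hy' hxy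
            split_ifs <;> omega
        · by_cases hyv : y = v
          · rw [if_neg hxv, if_pos hyv]
            have hx' : x ∈ S.erase v := Finset.mem_erase.2 ⟨hxv, hx⟩
            rw [hyv] at hxy
            have := hva x hx' (hsymm _ _ hxy)
            split_ifs <;> omega
          · rw [if_neg hxv, if_neg hyv]
            have hx' : x ∈ S.erase v := Finset.mem_erase.2 ⟨hxv, hx⟩
            have hy' : y ∈ S.erase v := Finset.mem_erase.2 ⟨hyv, hy⟩
            have h1 := hr x hx' y hy' hxy
            have h2 : ¬ (r x + 1 = p ∧ r y = p) := fun h => hbr x hx' y hy' hxy h.1 h.2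
            have h3 : ¬ (r y + 1 = p ∧ r x = p) :=
              fun h => hbr y hy' x hx' (hsymm _ _ hxy) h.1 h.2
            split_ifs <;> omega
    by_cases hnb : ∃ u ∈ S.erase v, K v u
    · obtain ⟨u, hu, hvu⟩ := hnb
      have huS := (Finset.mem_erase.1 hu).2
      have huv := (Finset.mem_erase.1 hu).1
      have hlu := hlt u hu
      have honly : ∀ a ∈ S.erase v, K v a → a = u := fun a ha hva =>
        hv1 a (Finset.mem_erase.1 ha).2 u huS hva hvu
      by_cases hA : ∃ a ∈ S.erase v, K a u ∧ r a + 1 = r u
      · obtain ⟨a, ha, hau, hra⟩ := hA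
        refine ins (r u + 1) (by omega) ?_ ?_
        · intro x hx y hy hxy h1 h2
          have hxu : x = u := hinj hx hu (by omega)
          subst hxu
          rcases hdeg x a y v (hsymm _ _ hau) hxy (hsymm _ _ hvu) with h | h | h
          · subst h; omega
          · subst h; exact (Finset.mem_erase.1 ha).1 rfl
          · subst h; exact (Finset.mem_erase.1 hy).1 rfl
        · intro x hx hvx
          rw [honly x hx hvx]
          right; rfl
      · refine ins (r u) (by omega) ?_ ?_
        · intro x hx y hy hxy h1 h2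
          have hyu : y = u := hinj hy hu (by omega)
          subst hyu
          exact hA ⟨x, hx, hxy, h1⟩
        · intro x hx hvx
          rw [honly x hx hvx]
          left; rfl
    · refine ins 0 (by omega) ?_ ?_
      · intro x hx y hy hxy h1 h2
        omega
      · intro x hx hvx
        exact absurd ⟨x, hx, hvx⟩ hnb

/-- **Cycle-plus-triangles theorem** for linear forests. -/
theorem linear_forest {J : Type*} [Fintype X] [Fintype J] [DecidableEq J] (g : X → J)
    (hg : ∀ j, (Finset.univ.filter (fun x => g x = j)).card = 3)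
    (K : X → X → Prop) (hsymm : ∀ u v, K u v → K v u) (hirr : ∀ u, ¬ K u u)
    (hdeg : ∀ u a b c, K u a → K u b → K u c → a = b ∨ a = c ∨ b = c)
    (hac : ∀ S : Finset X, S.Nonempty → ∃ v ∈ S, ∀ a ∈ S, ∀ b ∈ S, K v a → K v b → a = b) :
    ∃ c : X → Fin 3, (∀ u v, K u v → c u ≠ c v) ∧ (∀ u v, g u = g v → c u = c v → u = v) := by
  classical
  obtain ⟨r, hinj, hlt, hr⟩ := rank K hsymm hirr hdeg hac (Fintype.card X) Finset.univ rfl
  have hb : Function.Bijective (fun x : X => (⟨r x, hlt x (mem_univ x)⟩ : Fin (Fintype.card X))) := by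
    rw [Fintype.bijective_iff_injective_and_card]
    refine ⟨?_, by simp⟩
    intro x y hxy
    exact hinj (Finset.mem_coe.2 (mem_univ x)) (Finset.mem_coe.2 (mem_univ y))
      (congrArg Fin.val hxy)
  let e0 : X ≃ Fin (Fintype.card X) := Equiv.ofBijective _ hb
  have he0 : ∀ x, (e0 x : ℕ) = r x := fun x => rfl
  have hfib : ∀ j, Nonempty ({x // g x = j} ≃ Fin 3) := by
    intro j
    refine ⟨Fintype.equivFinOfCardEq ?_⟩
    rw [Fintype.card_subtype]
    exact hg j
  have φ : ∀ j, {x // g x = j} ≃ Fin 3 := fun j => (hfib j).some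
  let e1 : X ≃ J × Fin 3 := (Equiv.sigmaFiberEquiv g).symm.trans
    ((Equiv.sigmaCongrRight φ).trans (Equiv.sigmaEquivProd J (Fin 3)))
  have he1 : ∀ x, (e1 x).1 = g x := fun x => rfl
  obtain ⟨π, hπ⟩ := FS.exists_colouring (e1.symm.trans e0)
  refine ⟨fun x => π (e1 x).1 (e1 x).2, ?_, ?_⟩
  · intro u v huv
    rcases hr u (mem_univ _) v (mem_univ _) huv with h | h
    · have := hπ (e1 v) (e1 u) (by simp [he0, h])
      exact fun hh => this hh.symm
    · have := hπ (e1 u) (e1 v) (by simp [he0, h])
      exact this
  · intro u v huv hc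
    simp only [he1, huv] at hc
    have h2 := (π (g v)).injective hc
    apply e1.injective
    exact Prod.ext (by rw [he1, he1, huv]) h2

end Run7.h493.LF
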