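import Mathlib
import Pool.Agent.H931R2.Haxell

set_option autoImplicit false

/-! Independent transversals hitting as many cycles as possible. -/

set_option linter.unusedSectionVars false

namespace Run7.h493.Reg

open Finset

variable {V B : Type*} [Fintype V] [DecidableEq V] [Fintype B] [DecidableEq B]

/-- `t` picks one vertex of each block, and the picked vertices are pairwise not adjacent. -/
structure IT (H : SimpleGraph V) (bl : V → B) (t : B → V) : Prop where
  bl : ∀ b, bl (t b) = b
  ind : ∀ b b', ¬ H.Adj (t b) (t b')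

theorem exists_IT (H : SimpleGraph V) (bl : V → B)
    (hbl : ∀ b, (Finset.univ.filter (fun v => bl v = b)).card = 4)
    (hdeg : ∀ u a b c, H.Adj u a → H.Adj u b → H.Adj u c → a = b ∨ a = c ∨ b = c) :
    ∃ t : B → V, IT H bl t := by
  classical
  have hfib : ∀ b, Nonempty ({x // bl x = b} ≃ Fin 4) := by
    intro b
    refine ⟨Fintype.equivFinOfCardEq ?_⟩
    rw [Fintype.card_subtype]
    exact hbl b
  have φ : ∀ b, {x // bl x = b} ≃ Fin 4 := fun b => (hfib b).some
  let e1 : V ≃ B × Fin 4 := (Equiv.sigmaFiberEquiv bl).symm.trans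
    ((Equiv.sigmaCongrRight φ).trans (Equiv.sigmaEquivProd B (Fin 4)))
  have he1 : ∀ x, (e1 x).1 = bl x := fun x => rfl
  have hN : ∀ u : V, (Finset.univ.filter (fun v => H.Adj u v)).card ≤ 2 := by
    intro u
    by_contra hcon
    push Not at hcon
    obtain ⟨a, ha, b, hb, c, hc, hab, hac, hbc⟩ := Finset.two_lt_card.1 hcon
    simp only [Finset.mem_filter, Finset.mem_univ, true_and] at ha hb hc
    rcases hdeg u a b c ha hb hc with h | h | h
    · exact hab h
    · exact hac h
    · exact hbc h
  obtain ⟨f, hf⟩ := Pool.Agent.H931R2.Haxell.finite (I := B) (S := Fin 4)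
    (adj := fun p q => H.Adj (e1.symm p) (e1.symm q)) (fun a b h => h.symm) (by
      intro K hK Z hZ
      by_contra hcon
      push Not at hcon
      have hsub : (K ×ˢ (Finset.univ : Finset (Fin 4))) ⊆
          Z.biUnion (fun z => (Finset.univ.filter (fun v => H.Adj (e1.symm z) v)).image e1) := by
        rintro ⟨i, s⟩ his
        obtain ⟨z, hz, hadj⟩ := hcon i (Finset.mem_product.1 his).1 s
        rw [Finset.mem_biUnion]
        refine ⟨z, hz, ?_⟩
        rw [Finset.mem_image]
        refine ⟨e1.symm (i, s), ?_, e1.apply_symm_apply _⟩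
        simp only [Finset.mem_filter, Finset.mem_univ, true_and]
        exact hadj.symm
      have h1 := Finset.card_le_card hsub
      have h2 : (Z.biUnion (fun z =>
          (Finset.univ.filter (fun v => H.Adj (e1.symm z) v)).image e1)).card ≤ Z.card * 2 := by
        apply Finset.card_biUnion_le_card_mul
        intro z _
        exact Finset.card_image_le.trans (hN _)
      rw [Finset.card_product, Finset.card_univ, Fintype.card_fin] at h1
      have h3 := hK.card_pos
      omega) Finset.univ
  refine ⟨fun b => e1.symm (b, f b), ?_, ?_⟩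
  · intro b
    have := he1 (e1.symm (b, f b))
    rw [e1.apply_symm_apply] at this
    exact this.symm
  · intro b b' hadj
    by_cases h : b = b'
    · subst h
      exact H.loopless.irrefl _ hadj
    · exact hf b (mem_univ _) b' (mem_univ _) h hadj

/-- a component in which every vertex has two neighbours -/
def Cyc (H : SimpleGraph V) (C : H.ConnectedComponent) : Prop :=
  ∀ v, H.connectedComponentMk v = C → ∃ a b, a ≠ b ∧ H.Adj v a ∧ H.Adj v b

def Hit (H : SimpleGraph V) (t : B → V) (C : H.ConnectedComponent) : Prop :=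
  ∃ b, H.connectedComponentMk (t b) = C

def hitset (H : SimpleGraph V) (t : B → V) : Set H.ConnectedComponent :=
  {C | Cyc H C ∧ Hit H t C}

structure MaxIT (H : SimpleGraph V) (bl : V → B) (t : B → V) : Prop where
  it : IT H bl t
  max : ∀ t', IT H bl t' → (hitset H t').ncard ≤ (hitset H t).ncard

theorem exists_max (H : SimpleGraph V) (bl : V → B)
    (hbl : ∀ b, (Finset.univ.filter (fun v => bl v = b)).card = 4)
    (hdeg : ∀ u a b c, H.Adj u a → H.Adj u b → H.Adj u c → a = b ∨ a = c ∨ b = c) :
    ∃ t : B → V, MaxIT H bl t := by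
  classical
  obtain ⟨t0, ht0⟩ := exists_IT H bl hbl hdeg
  obtain ⟨t, ht, hmax⟩ := Finset.exists_max_image (Finset.univ.filter (fun t : B → V => IT H bl t))
    (fun t => (hitset H t).ncard) ⟨t0, by simp [ht0]⟩
  refine ⟨t, (Finset.mem_filter.1 ht).2, fun t' ht' => hmax t' (by simp [ht'])⟩

/-- the block `b` is good: its picked vertex is alone on a cycle -/
def Good (H : SimpleGraph V) (t : B → V) (b : B) : Prop :=
  Cyc H (H.connectedComponentMk (t b)) ∧
    ∀ b', H.connectedComponentMk (t b') = H.connectedComponentMk (t b) → b' = b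

variable {H : SimpleGraph V} {bl : V → B} {t : B → V}

lemma cc_adj {u v : V} (h : H.Adj u v) :
    H.connectedComponentMk u = H.connectedComponentMk v :=
  SimpleGraph.ConnectedComponent.sound h.reachable

lemma exch (ht : MaxIT H bl t) (v : V) (hC : Cyc H (H.connectedComponentMk v))
    (hu : ¬ Hit H t (H.connectedComponentMk v)) :
    Good H t (bl v) ∧ MaxIT H bl (Function.update t (bl v) v) ∧
      ¬ Hit H (Function.update t (bl v) v) (H.connectedComponentMk (t (bl v))) := by
  classical
  have hfin : ∀ s : Set H.ConnectedComponent, s.Finite := fun s => Set.toFinite s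
  have hit' : IT H bl (Function.update t (bl v) v) := by
    constructor
    · intro b
      by_cases h : b = bl v
      · subst h; simp
      · rw [Function.update_of_ne h]; exact ht.it.bl b
    · intro b b' hadj
      by_cases h : b = bl v
      · by_cases h' : b' = bl v
        · rw [h, h'] at hadj
          exact H.loopless.irrefl _ hadj
        · rw [h, Function.update_self, Function.update_of_ne h'] at hadj
          exact hu ⟨b', (cc_adj hadj).symm⟩
      · by_cases h' : b' = bl v
        · rw [h', Function.update_self, Function.update_of_ne h] at hadj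
          exact hu ⟨b, cc_adj hadj⟩
        · rw [Function.update_of_ne h, Function.update_of_ne h'] at hadj
          exact ht.it.ind _ _ hadj
  have hmem : H.connectedComponentMk v ∈ hitset H (Function.update t (bl v) v) :=
    ⟨hC, bl v, by rw [Function.update_self]⟩
  have hsub : hitset H t \ {H.connectedComponentMk (t (bl v))} ⊆
      hitset H (Function.update t (bl v) v) := by
    rintro D ⟨⟨hD, b, hb⟩, hD'⟩
    refine ⟨hD, b, ?_⟩
    rw [Function.update_of_ne, hb]
    intro h
    apply hD'
    rw [← hb, h]
    rfl
  have hgood : Good H t (bl v) := by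
    by_contra hbad
    have hsub' : hitset H t ⊆ hitset H (Function.update t (bl v) v) := by
      intro D hD
      by_cases hDD : D = H.connectedComponentMk (t (bl v))
      · unfold Good at hbad
        push Not at hbad
        obtain ⟨b', hb', hne⟩ := hbad (hDD ▸ hD.1)
        refine ⟨hD.1, b', ?_⟩
        rw [Function.update_of_ne hne, hb', hDD]
      · exact hsub ⟨hD, hDD⟩
    have hss : hitset H t ⊂ hitset H (Function.update t (bl v) v) := by
      refine Set.ssubset_iff_subset_ne.2 ⟨hsub', fun h => ?_⟩
      rw [← h] at hmem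
      exact hu hmem.2
    exact absurd (ht.max _ hit') (not_le.2 (Set.ncard_lt_ncard hss (hfin _)))
  refine ⟨hgood, ⟨hit', fun t' ht' => (ht.max t' ht').trans ?_⟩, ?_⟩
  · have h1 : insert (H.connectedComponentMk v)
        (hitset H t \ {H.connectedComponentMk (t (bl v))}) ⊆
        hitset H (Function.update t (bl v) v) := Set.insert_subset hmem hsub
    have h2 := Set.ncard_le_ncard h1 (hfin _)
    have h3 : H.connectedComponentMk v ∉
        (hitset H t \ {H.connectedComponentMk (t (bl v))}) := fun h => hu h.1.2
    rw [Set.ncard_insert_of_notMem h3 (hfin _)] at h2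
    have h4 : H.connectedComponentMk (t (bl v)) ∈ hitset H t := ⟨hgood.1, bl v, rfl⟩
    have h5 := Set.ncard_sdiff_singleton_add_one h4 (hfin _)
    omega
  · rintro ⟨b, hb⟩
    by_cases h : b = bl v
    · rw [h, Function.update_self] at hb
      exact hu ⟨bl v, hb.symm⟩
    · rw [Function.update_of_ne h] at hb
      exact h (hgood.2 b hb)

/-- blocks reached from the component `C` in `n` steps -/
def RF (H : SimpleGraph V) (bl : V → B) (t : B → V) : ℕ → H.ConnectedComponent → B → Prop
  | 0, C, b => ∃ v, H.connectedComponentMk v = C ∧ bl v = b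
  | n + 1, C, b => ∃ v, H.connectedComponentMk v = C ∧
      RF H bl t n (H.connectedComponentMk (t (bl v))) b

lemma RF_ext (n : ℕ) : ∀ (C : H.ConnectedComponent) (b : B) (w : V), RF H bl t n C b →
    H.connectedComponentMk w = H.connectedComponentMk (t b) → RF H bl t (n + 1) C (bl w) := by
  induction n with
  | zero =>
    rintro C b w ⟨v, hv, rfl⟩ hw
    exact ⟨v, hv, w, hw, rfl⟩
  | succ n ih =>
    rintro C b w ⟨v, hv, h⟩ hw
    exact ⟨v, hv, ih _ _ _ h hw⟩

lemma shorten (v : V) (b : B) (k : ℕ) : ∀ D : H.ConnectedComponent, RF H bl t k D b →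
    RF H bl (Function.update t (bl v) v) k D b ∨
      ∃ k' < k, RF H bl t k' (H.connectedComponentMk (t (bl v))) b := by
  induction k with
  | zero =>
    rintro D ⟨w, hw, hb⟩
    exact Or.inl ⟨w, hw, hb⟩
  | succ k ih =>
    rintro D ⟨w, hw, h⟩
    by_cases hwv : bl w = bl v
    · right
      refine ⟨k, by omega, ?_⟩
      rw [hwv] at h
      exact h
    · rcases ih _ h with h' | ⟨k', hk', h'⟩
      · left
        refine ⟨w, hw, ?_⟩
        rw [Function.update_of_ne hwv]
        exact h'
      · right
        exact ⟨k', by omega, h'⟩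

theorem reach_good (n : ℕ) : ∀ (t : B → V) (C : H.ConnectedComponent) (b : B), MaxIT H bl t →
    Cyc H C → ¬ Hit H t C → RF H bl t n C b → Good H t b := by
  induction n using Nat.strong_induction_on with
  | _ n ih =>
  rcases n with _ | n
  · rintro t C b ht hC hu ⟨v, rfl, rfl⟩
    exact (exch ht v hC hu).1
  · rintro t C b ht hC hu ⟨v, rfl, h⟩
    obtain ⟨h1, h2, h3⟩ := exch ht v hC hu
    by_cases hb : b = bl v
    · rw [hb]; exact h1
    rcases shorten v b n _ h with h' | ⟨k', hk', h'⟩
    · have h4 := ih n (by omega) _ _ b h2 h1.1 h3 h'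
      unfold Good at h4
      rw [Function.update_of_ne hb] at h4
      refine ⟨h4.1, fun b' hb' => ?_⟩
      by_cases hb'v : b' = bl v
      · rw [hb'v] at hb' ⊢
        exact (h1.2 b hb'.symm).symm
      · apply h4.2 b'
        rw [Function.update_of_ne hb'v]
        exact hb'
    · exact ih (k' + 1) (by omega) t _ b ht hC hu ⟨v, rfl, h'⟩

/-- the region -/
def Region (H : SimpleGraph V) (bl : V → B) (t : B → V) (b : B) : Prop :=
  ∃ C n, Cyc H C ∧ ¬ Hit H t C ∧ RF H bl t n C b

theorem region_good (ht : MaxIT H bl t) {b : B} (h : Region H bl t b) : Good H t b := by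
  obtain ⟨C, n, hC, hu, hr⟩ := h
  exact reach_good n t C b ht hC hu hr

theorem region_start (v : V) (hC : Cyc H (H.connectedComponentMk v))
    (hu : ¬ Hit H t (H.connectedComponentMk v)) : Region H bl t (bl v) :=
  ⟨_, 0, hC, hu, v, rfl, rfl⟩

theorem region_step {b : B} (h : Region H bl t b) (w : V)
    (hw : H.connectedComponentMk w = H.connectedComponentMk (t b)) :
    Region H bl t (bl w) := by
  obtain ⟨C, n, hC, hu, hr⟩ := h
  exact ⟨C, n + 1, hC, hu, RF_ext n C b w hr hw⟩

end Run7.h493.Reg
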