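import Mathlib
import Pool.Agent.Run7.h493.LF
import Pool.Agent.Run7.h493.Reg

set_option autoImplicit false
set_option linter.unusedSectionVars false

/-! The initial colouring: the transversal gets colour 3, the rest is coloured by the
cycle-plus-triangles theorem after opening the cycles missed by the transversal. -/

namespace Run7.h493.Init

open Finset Reg

variable {V B : Type*} [Fintype V] [DecidableEq V] [Fintype B] [DecidableEq B]
variable {H : SimpleGraph V} {bl : V → B} {t : B → V}

/-- components which are cycles and are missed by the transversal -/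
def Un (H : SimpleGraph V) (t : B → V) (C : H.ConnectedComponent) : Prop :=
  Cyc H C ∧ ¬ Hit H t C

lemma exists_open (H : SimpleGraph V) : ∃ a c : H.ConnectedComponent → V, ∀ C, Cyc H C →
    H.connectedComponentMk (a C) = C ∧ H.Adj (a C) (c C) := by
  classical
  have h1 : ∀ C : H.ConnectedComponent, ∃ v, H.connectedComponentMk v = C :=
    fun C => Quot.exists_rep C
  choose a ha using h1
  have h2 : ∀ C : H.ConnectedComponent, ∃ w, Cyc H C → H.Adj (a C) w := by
    intro C
    by_cases hC : Cyc H C
    · obtain ⟨x, y, -, hx, -⟩ := hC (a C) (ha C)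
      exact ⟨x, fun _ => hx⟩
    · exact ⟨a C, fun h => absurd h hC⟩
  choose c hc using h2
  exact ⟨a, c, fun C hC => ⟨ha C, hc C hC⟩⟩

/-- the opened edges -/
def Del (t : B → V) (a c : H.ConnectedComponent → V) (u v : V) : Prop :=
  ∃ C, Un H t C ∧ ((u = a C ∧ v = c C) ∨ (u = c C ∧ v = a C))

theorem init (ht : IT H bl t)
    (hbl : ∀ b, (Finset.univ.filter (fun v => bl v = b)).card = 4)
    (hdeg : ∀ u a b c, H.Adj u a → H.Adj u b → H.Adj u c → a = b ∨ a = c ∨ b = c)
    (a c : H.ConnectedComponent → V)
    (hac : ∀ C, Cyc H C → H.connectedComponentMk (a C) = C ∧ H.Adj (a C) (c C)) :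
    ∃ f : V → Fin 4, (∀ u v, bl u = bl v → f u = f v → u = v) ∧
      (∀ u v, H.Adj u v → f u = f v → Del t a c u v) ∧
      (∀ v, f v = 3 ↔ v = t (bl v)) := by
  classical
  let X := {v : V // v ≠ t (bl v)}
  let K : X → X → Prop := fun u v => H.Adj u.1 v.1 ∧ ¬ Del t a c u.1 v.1
  have hDs : ∀ u v, Del (H := H) t a c u v → Del (H := H) t a c v u := by
    rintro u v ⟨C, hC, h | h⟩
    · exact ⟨C, hC, Or.inr ⟨h.2, h.1⟩⟩
    · exact ⟨C, hC, Or.inl ⟨h.2, h.1⟩⟩
  obtain ⟨f, hf1, hf2⟩ := LF.linear_forest (X := X) (fun v => bl v.1) (by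
      intro b
      have h1 : (Finset.univ.filter (fun v => bl v = b)).erase (t b) =
          (Finset.univ.filter (fun x : X => bl x.1 = b)).image Subtype.val := by
        ext v
        simp only [Finset.mem_erase, Finset.mem_filter, Finset.mem_univ, true_and,
          Finset.mem_image]
        constructor
        · rintro ⟨h1, h2⟩
          refine ⟨⟨v, ?_⟩, h2, rfl⟩
          rw [h2]; exact h1
        · rintro ⟨⟨w, hw⟩, h1, rfl⟩
          refine ⟨?_, h1⟩
          rw [← h1]; exact hw
      have h2 : t b ∈ Finset.univ.filter (fun v => bl v = b) := by simp [ht.bl]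
      have h3 := Finset.card_erase_of_mem h2
      rw [h1, Finset.card_image_of_injective _ Subtype.val_injective, hbl] at h3
      exact h3)
    K (fun u v h => ⟨h.1.symm, fun hh => h.2 (hDs _ _ hh)⟩)
    (fun u h => H.loopless.irrefl _ h.1)
    (by
      intro u x y z hx hy hz
      rcases hdeg u.1 x.1 y.1 z.1 hx.1 hy.1 hz.1 with h | h | h
      · exact Or.inl (Subtype.ext h)
      · exact Or.inr (Or.inl (Subtype.ext h))
      · exact Or.inr (Or.inr (Subtype.ext h)))
    (by
      intro S hS
      by_contra hcon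
      push Not at hcon
      obtain ⟨v0, hv0⟩ := hS
      -- neighbours of members are members
      have hclo : ∀ v : X, v ∈ S → ∀ w : V, H.Adj v.1 w → ∃ hw, (⟨w, hw⟩ : X) ∈ S := by
        intro v hv w hvw
        obtain ⟨x, hx, y, hy, hvx, hvy, hxy⟩ := hcon v hv
        rcases hdeg v.1 x.1 y.1 w hvx.1 hvy.1 hvw with h | h | h
        · exact absurd (Subtype.ext h) hxy
        · subst h
          exact ⟨x.2, hx⟩
        · subst h
          exact ⟨y.2, hy⟩
      have hreach : ∀ w : V, H.Reachable v0.1 w → ∃ hw, (⟨w, hw⟩ : X) ∈ S := by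
        rintro w ⟨p⟩
        have : ∀ (u w : V) (p : H.Walk u w), (∃ hu, (⟨u, hu⟩ : X) ∈ S) →
            ∃ hw, (⟨w, hw⟩ : X) ∈ S := by
          intro u w p
          induction p with
          | nil => exact id
          | cons h p ih =>
            rintro ⟨hu, hus⟩
            exact ih (hclo _ hus _ h)
        exact this _ _ p ⟨v0.2, hv0⟩
      have hcomp : ∀ w : V, H.connectedComponentMk w = H.connectedComponentMk v0.1 →
          ∃ hw, (⟨w, hw⟩ : X) ∈ S := by
        intro w hw
        exact hreach w (SimpleGraph.ConnectedComponent.exact hw.symm)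
      have hUn : Un H t (H.connectedComponentMk v0.1) := by
        constructor
        · intro w hw
          obtain ⟨hw', hwS⟩ := hcomp w hw
          obtain ⟨x, hx, y, hy, hvx, hvy, hxy⟩ := hcon _ hwS
          exact ⟨x.1, y.1, fun h => hxy (Subtype.ext h), hvx.1, hvy.1⟩
        · rintro ⟨b, hb⟩
          obtain ⟨hw', -⟩ := hcomp _ hb
          apply hw'
          rw [ht.bl]
      obtain ⟨h1, h2⟩ := hac _ hUn.1
      obtain ⟨hw', hwS⟩ := hcomp _ h1
      obtain ⟨x, hx, y, hy, hvx, hvy, hxy⟩ := hcon _ hwS
      have hxc : x.1 ≠ c (H.connectedComponentMk v0.1) := by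
        intro h
        exact hvx.2 ⟨_, hUn, Or.inl ⟨rfl, h⟩⟩
      have hyc : y.1 ≠ c (H.connectedComponentMk v0.1) := by
        intro h
        exact hvy.2 ⟨_, hUn, Or.inl ⟨rfl, h⟩⟩
      rcases hdeg _ _ _ _ hvx.1 hvy.1 h2 with h | h | h
      · exact hxy (Subtype.ext h)
      · exact hxc h
      · exact hyc h)
  have h3 : ∀ x : Fin 3, x.castSucc ≠ (3 : Fin 4) := by decide
  refine ⟨fun v => if h : v ≠ t (bl v) then (f ⟨v, h⟩).castSucc else 3, ?_, ?_, ?_⟩
  · intro u v huv h
    simp only at h
    by_cases hu : u ≠ t (bl u)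
    · by_cases hv : v ≠ t (bl v)
      · rw [dif_pos hu, dif_pos hv] at h
        have := hf2 ⟨u, hu⟩ ⟨v, hv⟩ huv (Fin.castSucc_injective _ h)
        exact congrArg Subtype.val this
      · rw [dif_pos hu, dif_neg hv] at h
        exact absurd h (h3 _)
    · by_cases hv : v ≠ t (bl v)
      · rw [dif_neg hu, dif_pos hv] at h
        exact absurd h.symm (h3 _)
      · push Not at hu hv
        rw [hu, hv, huv]
  · intro u v huv h
    simp only at h
    by_cases hu : u ≠ t (bl u)
    · by_cases hv : v ≠ t (bl v)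
      · rw [dif_pos hu, dif_pos hv] at h
        by_contra hD
        exact hf1 ⟨u, hu⟩ ⟨v, hv⟩ ⟨huv, hD⟩ (Fin.castSucc_injective _ h)
      · rw [dif_pos hu, dif_neg hv] at h
        exact absurd h (h3 _)
    · by_cases hv : v ≠ t (bl v)
      · rw [dif_neg hu, dif_pos hv] at h
        exact absurd h.symm (h3 _)
      · push Not at hu hv
        rw [hu, hv] at huv
        exact absurd huv (ht.ind _ _)
  · intro v
    simp only
    constructor
    · intro h
      by_contra hv
      rw [dif_pos hv] at h
      exact h3 _ h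
    · intro h
      rw [dif_neg (not_not.2 h)]

end Run7.h493.Init
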