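import Mathlib
import Pool.Agent.Run7.h493.Init

set_option autoImplicit false
set_option linter.unusedSectionVars false
set_option linter.unusedVariables false

/-! One stage of Kempe changes: the colours `k` and `3` are exchanged in the blocks reached from
the conflicts of colour `k`. -/

namespace Run7.h493.Stage

open Finset Reg Init

variable {V B : Type*} [Fintype V] [DecidableEq V] [Fintype B] [DecidableEq B]
variable {H : SimpleGraph V} {bl : V → B} {t : B → V}

/-- blocks reached by the changes of colour `k` -/
inductive Fl (H : SimpleGraph V) (bl : V → B) (t : B → V) (a c : H.ConnectedComponent → V)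
    (f : V → Fin 4) (k : Fin 4) : B → Prop
  | start (C : H.ConnectedComponent) : Un H t C → f (a C) = k → f (c C) = k →
      Fl H bl t a c f k (bl (a C))
  | step (s u : V) : Fl H bl t a c f k (bl s) → f s = 3 → H.Adj s u → f u = k →
      Fl H bl t a c f k (bl u)

open Classical in
/-- the new colouring -/
noncomputable def nf (H : SimpleGraph V) (bl : V → B) (t : B → V) (a c : H.ConnectedComponent → V)
    (f : V → Fin 4) (k : Fin 4) (v : V) : Fin 4 :=
  if Fl H bl t a c f k (bl v) then Equiv.swap k 3 (f v) else f v

variable {a c : H.ConnectedComponent → V} {f : V → Fin 4} {k : Fin 4}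

lemma nf_other {v : V} (h1 : f v ≠ k) (h2 : f v ≠ 3) : nf H bl t a c f k v = f v := by
  unfold nf
  split_ifs
  · exact Equiv.swap_apply_of_ne_of_ne h1 h2
  · rfl

lemma nf_three (hk : k ≠ 3) {v : V} : nf H bl t a c f k v = 3 ↔
    (f v = 3 ∧ ¬ Fl H bl t a c f k (bl v)) ∨ (f v = k ∧ Fl H bl t a c f k (bl v)) := by
  unfold nf
  split_ifs with h
  · rw [Equiv.swap_apply_eq_iff, Equiv.swap_apply_right]
    tauto
  · tauto

lemma nf_k (hk : k ≠ 3) {v : V} : nf H bl t a c f k v = k ↔
    (f v = k ∧ ¬ Fl H bl t a c f k (bl v)) ∨ (f v = 3 ∧ Fl H bl t a c f k (bl v)) := by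
  unfold nf
  split_ifs with h
  · rw [Equiv.swap_apply_eq_iff, Equiv.swap_apply_left]
    tauto
  · tauto

lemma nf_inj (h1 : ∀ u v, bl u = bl v → f u = f v → u = v) :
    ∀ u v, bl u = bl v → nf H bl t a c f k u = nf H bl t a c f k v → u = v := by
  intro u v huv h
  apply h1 u v huv
  unfold nf at h
  rw [huv] at h
  split_ifs at h with hh
  · exact (Equiv.swap k 3).injective h
  · exact h

/-- the state before stage `k` -/
structure St (H : SimpleGraph V) (bl : V → B) (t : B → V) (a c : H.ConnectedComponent → V)
    (f : V → Fin 4) (k : ℕ) : Prop where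
  inj : ∀ u v, bl u = bl v → f u = f v → u = v
  conf : ∀ u v, H.Adj u v → f u = f v → ∃ C, Un H t C ∧ (∀ s, H.connectedComponentMk s = C →
    f s ≠ 3) ∧ k ≤ (f u : ℕ) ∧ ((u = a C ∧ v = c C) ∨ (u = c C ∧ v = a C))
  reg : ∀ s, f s = 3 → Region H bl t (bl s) → Un H t (H.connectedComponentMk s) ∨
    ∃ b, Region H bl t b ∧ H.connectedComponentMk s = H.connectedComponentMk (t b)

theorem fl_region {kk : ℕ} (hst : St H bl t a c f kk)
    (hac : ∀ C, Cyc H C → H.connectedComponentMk (a C) = C ∧ H.Adj (a C) (c C)) (b : B)
    (hb : Fl H bl t a c f k b) : Region H bl t b := by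
  induction hb with
  | start C hC _ _ =>
    obtain ⟨h1, h2⟩ := hac C hC.1
    apply region_start
    · rw [h1]; exact hC.1
    · rw [h1]; exact hC.2
  | step s u _ hs hsu _ ih =>
    rcases hst.reg s hs ih with h | ⟨b', hb', h⟩
    · apply region_start
      · rw [← cc_adj hsu]; exact h.1
      · rw [← cc_adj hsu]; exact h.2
    · apply region_step hb'
      rw [← cc_adj hsu]; exact h

/-- vertices of the flipped blocks of colour `k` -/
theorem fl_cases (hst : ∀ u v, bl u = bl v → f u = f v → u = v) {u : V} (hu : f u = k)
    (h : Fl H bl t a c f k (bl u)) :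
    (∃ C, Un H t C ∧ u = a C ∧ f (a C) = k ∧ f (c C) = k) ∨
      ∃ s, Fl H bl t a c f k (bl s) ∧ f s = 3 ∧ H.Adj s u := by
  generalize hb : bl u = b at h
  cases h with
  | start C hC h1 h2 =>
    left
    exact ⟨C, hC, hst u (a C) hb (hu.trans h1.symm), h1, h2⟩
  | step s w h1 h2 h3 h4 =>
    right
    have := hst u w hb (hu.trans h4.symm)
    subst this
    exact ⟨s, h1, h2, h3⟩

/-- a component without colour 3 whose opened edge is not in conflict of colour `k` is unchanged -/
theorem quiet (hk : k ≠ 3) (hinj : ∀ u v, bl u = bl v → f u = f v → u = v)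
    (hac : ∀ C, Cyc H C → H.connectedComponentMk (a C) = C ∧ H.Adj (a C) (c C))
    {C : H.ConnectedComponent} (h3 : ∀ s, H.connectedComponentMk s = C → f s ≠ 3)
    {v : V} (hv : H.connectedComponentMk v = C) (hf : f v = k)
    (hfl : Fl H bl t a c f k (bl v)) : Un H t C ∧ v = a C ∧ f (a C) = k ∧ f (c C) = k := by
  rcases fl_cases hinj hf hfl with ⟨C', h1, h2, h3', h4⟩ | ⟨s, h1, h2, h3'⟩
  · have : C' = C := by
      rw [← hv, h2, (hac C' h1.1).1]
    subst this
    exact ⟨h1, h2, h3', h4⟩
  · exact absurd h2 (h3 s ((cc_adj h3').trans hv))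

theorem stage {kk : ℕ} (hkk : (k : ℕ) = kk) (hk : k ≠ 3) (hst : St H bl t a c f kk)
    (hac : ∀ C, Cyc H C → H.connectedComponentMk (a C) = C ∧ H.Adj (a C) (c C))
    (hF : ∀ u s s', f u = k → H.Adj u s → H.Adj u s' → f s = 3 → f s' = 3 →
      Region H bl t (bl s) → s = s') :
    St H bl t a c (nf H bl t a c f k) (kk + 1) := by
  classical
  have hR := fun b => fl_region (k := k) hst hac b
  -- an edge between colours `k` and `3` is flipped at both ends or at none
  have hedge : ∀ u v, H.Adj u v → f u = k → f v = 3 →
      (Fl H bl t a c f k (bl u) ↔ Fl H bl t a c f k (bl v)) := by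
    intro u v huv hu hv
    constructor
    · intro h
      rcases fl_cases hst.inj hu h with ⟨C, hC, h1, h2, h3⟩ | ⟨s, h1, h2, h3⟩
      · obtain ⟨e1, e2⟩ := hac C hC.1
        obtain ⟨C', hC', hq, -, h4⟩ := hst.conf _ _ e2 (h2.trans h3.symm)
        have : C' = C := by
          have e3 := (hac C' hC'.1).1
          have e4 := cc_adj (hac C' hC'.1).2
          rcases h4 with ⟨h4, -⟩ | ⟨h4, -⟩
          · rw [← e3, ← h4, e1]
          · rw [← e3, e4, ← h4, e1]
        subst this
        exact absurd hv (hq v (by rw [← cc_adj huv, h1, e1]))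
      · have := hF u s v hu h3.symm huv h2 hv (hR _ h1)
        subst this
        exact h1
    · intro h
      exact Fl.step v u h hv huv.symm hu
  -- conflicts of colour `k` are resolved
  have hconf : ∀ C, Un H t C → (∀ s, H.connectedComponentMk s = C → f s ≠ 3) →
      f (a C) = k → f (c C) = k →
      Fl H bl t a c f k (bl (a C)) ∧ ¬ Fl H bl t a c f k (bl (c C)) := by
    intro C hC hq h1 h2
    refine ⟨Fl.start C hC h1 h2, fun h => ?_⟩
    obtain ⟨e1, e2⟩ := hac C hC.1
    obtain ⟨-, h4, -, -⟩ := quiet hk hst.inj hac hq ((cc_adj e2).symm.trans e1) h2 h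
    rw [h4] at e2
    exact H.loopless.irrefl _ e2
  refine ⟨nf_inj hst.inj, ?_, ?_⟩
  · intro u v huv h
    -- first: the old colours agree and are not `k`
    have hold : f u = f v ∧ f u ≠ k := by
      by_cases hu3 : f u = 3
      · by_cases hv3 : f v = 3
        · exfalso
          obtain ⟨C, hC, hq, -, h4⟩ := hst.conf u v huv (hu3.trans hv3.symm)
          have : H.connectedComponentMk u = C := by
            rcases h4 with ⟨h4, -⟩ | ⟨h4, -⟩
            · rw [h4]; exact (hac C hC.1).1
            · rw [h4, ← cc_adj (hac C hC.1).2]; exact (hac C hC.1).1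
          exact hq u this hu3
        · by_cases hvk : f v = k
          · exfalso
            have he := hedge v u huv.symm hvk hu3
            unfold nf at h
            rw [hu3, hvk] at h
            split_ifs at h with h1 h2 h2
            · rw [Equiv.swap_apply_right, Equiv.swap_apply_left] at h
              exact hk h
            · exact h2 (he.2 h1)
            · exact h1 (he.1 h2)
            · exact hk h.symm
          · exfalso
            rw [nf_other hvk hv3] at h
            unfold nf at h
            split_ifs at h
            · rw [hu3, Equiv.swap_apply_right] at h; exact hvk h.symm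
            · exact hv3 (h.symm.trans hu3)
      · by_cases huk : f u = k
        · by_cases hv3 : f v = 3
          · exfalso
            have he := hedge u v huv huk hv3
            unfold nf at h
            rw [huk, hv3] at h
            split_ifs at h with h1 h2 h2
            · rw [Equiv.swap_apply_right, Equiv.swap_apply_left] at h
              exact hk h.symm
            · exact h2 (he.1 h1)
            · exact h1 (he.2 h2)
            · exact hk h
          · by_cases hvk : f v = k
            · exfalso
              obtain ⟨C, hC, hq, -, h4⟩ := hst.conf u v huv (huk.trans hvk.symm)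
              rcases h4 with ⟨h4, h5⟩ | ⟨h4, h5⟩
              · rw [h4] at huk h
                rw [h5] at hvk h
                obtain ⟨g1, g2⟩ := hconf C hC hq huk hvk
                unfold nf at h
                rw [if_pos g1, if_neg g2, huk, hvk, Equiv.swap_apply_left] at h
                exact hk h.symm
              · rw [h4] at huk h
                rw [h5] at hvk h
                obtain ⟨g1, g2⟩ := hconf C hC hq hvk huk
                unfold nf at h
                rw [if_pos g1, if_neg g2, huk, hvk, Equiv.swap_apply_left] at h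
                exact hk h
            · exfalso
              rw [nf_other hvk hv3] at h
              unfold nf at h
              split_ifs at h
              · rw [huk, Equiv.swap_apply_left] at h; exact hv3 h.symm
              · exact hvk (h.symm.trans huk)
        · rw [nf_other huk hu3] at h
          refine ⟨?_, huk⟩
          by_cases hvk : f v = k
          · exfalso
            unfold nf at h
            split_ifs at h
            · rw [hvk, Equiv.swap_apply_left] at h; exact hu3 h
            · exact huk (h.trans hvk)
          · by_cases hv3 : f v = 3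
            · exfalso
              unfold nf at h
              split_ifs at h
              · rw [hv3, Equiv.swap_apply_right] at h; exact huk h
              · exact hu3 (h.trans hv3)
            · rw [nf_other hvk hv3] at h
              exact h
    obtain ⟨C, hC, hq, hle, h4⟩ := hst.conf u v huv hold.1
    have hu3 : f u ≠ 3 := by
      intro hu3
      have : H.connectedComponentMk u = C := by
        rcases h4 with ⟨h4, -⟩ | ⟨h4, -⟩
        · rw [h4]; exact (hac C hC.1).1
        · rw [h4, ← cc_adj (hac C hC.1).2]; exact (hac C hC.1).1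
      exact hq u this hu3
    refine ⟨C, hC, ?_, ?_, h4⟩
    · intro s hs hs3
      rcases (nf_three hk).1 hs3 with ⟨h5, -⟩ | ⟨h5, h6⟩
      · exact hq s hs h5
      · obtain ⟨-, -, g1, g2⟩ := quiet hk hst.inj hac hq hs h5 h6
        rcases h4 with ⟨h4, -⟩ | ⟨h4, -⟩
        · rw [h4] at hold; exact hold.2 g1
        · rw [h4] at hold; exact hold.2 g2
    · rw [nf_other hold.2 hu3]
      have : (f u : ℕ) ≠ kk := by
        intro h
        exact hold.2 (Fin.ext (h.trans hkk.symm))
      omega
  · intro s hs hreg
    rcases (nf_three hk).1 hs with ⟨h5, -⟩ | ⟨h5, h6⟩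
    · exact hst.reg s h5 hreg
    · rcases fl_cases hst.inj h5 h6 with ⟨C, hC, h1, h2, h3⟩ | ⟨w, h1, h2, h3⟩
      · left
        rw [h1, (hac C hC.1).1]
        exact hC
      · rw [← cc_adj h3]
        exact hst.reg w h2 (hR _ h1)

end Run7.h493.Stage
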