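import Mathlib
import Pool.Agent.Run7.h493.Stage

set_option autoImplicit false
set_option linter.unusedSectionVars false
set_option linter.unusedVariables false

/-! Graphs of maximum degree at most two without cycles of length four, five and six:
four colours, all different on every block of four vertices. -/

namespace Run7.h493.Main

open Finset Reg Init Stage

variable {V B : Type*} [Fintype V] [DecidableEq V] [Fintype B] [DecidableEq B]
variable {H : SimpleGraph V} {bl : V → B} {t : B → V}

/-- no cycles of length four, five and six -/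
structure NoShort (H : SimpleGraph V) : Prop where
  c4 : ∀ a b c d, H.Adj a b → H.Adj b c → H.Adj c d → H.Adj d a → a ≠ c → b ≠ d → False
  c5 : ∀ a b c d e, H.Adj a b → H.Adj b c → H.Adj c d → H.Adj d e → H.Adj e a →
    [a, b, c, d, e].Nodup → False
  c6 : ∀ a b c d e g, H.Adj a b → H.Adj b c → H.Adj c d → H.Adj d e → H.Adj e g → H.Adj g a →
    [a, b, c, d, e, g].Nodup → False

variable {a c : H.ConnectedComponent → V} {f : V → Fin 4}

/-- membership in the flipped part for non-root components -/
lemma newthree {k : Fin 4} {kk : ℕ} (hk : k ≠ 3) (hst : St H bl t a c f kk)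
    (hac : ∀ C, Cyc H C → H.connectedComponentMk (a C) = C ∧ H.Adj (a C) (c C))
    {b : B} {s : V} (hs : H.connectedComponentMk s = H.connectedComponentMk (t b))
    (h : nf H bl t a c f k s = 3) :
    (f s = 3 ∧ ¬ Fl H bl t a c f k (bl s)) ∨
      (f s = k ∧ ∃ w, Fl H bl t a c f k (bl w) ∧ f w = 3 ∧ H.Adj w s ∧
        nf H bl t a c f k w = k ∧ H.connectedComponentMk w = H.connectedComponentMk (t b)) := by
  rcases (nf_three hk).1 h with h1 | ⟨h1, h2⟩
  · exact Or.inl h1
  · right
    refine ⟨h1, ?_⟩
    rcases fl_cases hst.inj h1 h2 with ⟨C, hC, h3, -, -⟩ | ⟨w, h3, h4, h5⟩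
    · exfalso
      apply hC.2
      refine ⟨b, ?_⟩
      rw [← hs, h3]
      exact (hac C hC.1).1
    · exact ⟨w, h3, h4, h5, (nf_k hk).2 (Or.inr ⟨h4, h3⟩), (cc_adj h5).trans hs⟩

theorem main (hbl : ∀ b, (Finset.univ.filter (fun v => bl v = b)).card = 4)
    (hdeg : ∀ u a b c, H.Adj u a → H.Adj u b → H.Adj u c → a = b ∨ a = c ∨ b = c)
    (hns : NoShort H) :
    ∃ f : V → Fin 4, (∀ u v, H.Adj u v → f u ≠ f v) ∧
      (∀ u v, bl u = bl v → f u = f v → u = v) := by
  classical
  obtain ⟨t, ht⟩ := exists_max H bl hbl hdeg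
  obtain ⟨a, c, hac⟩ := exists_open H
  obtain ⟨f, hf1, hf2, hf3⟩ := init ht.it hbl hdeg a c hac
  have hgood : ∀ b, Region H bl t b → Good H t b := fun b hb => region_good ht hb
  have ht3 : ∀ b, f (t b) = 3 := fun b => (hf3 _).2 (by rw [ht.it.bl])
  have hcc : ∀ {u v : V}, H.Adj u v → H.connectedComponentMk u = H.connectedComponentMk v :=
    fun h => cc_adj h
  -- state 0
  have hun0 : ∀ C, Un H t C → ∀ s, H.connectedComponentMk s = C → f s ≠ 3 := by
    intro C hC s hs h
    apply hC.2
    refine ⟨bl s, ?_⟩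
    rw [← (hf3 s).1 h]
    exact hs
  have hst0 : St H bl t a c f 0 := by
    refine ⟨hf1, ?_, ?_⟩
    · intro u v huv h
      obtain ⟨C, hC, h4⟩ := hf2 u v huv h
      exact ⟨C, hC, hun0 C hC, Nat.zero_le _, h4⟩
    · intro s hs hr
      right
      refine ⟨bl s, hr, ?_⟩
      rw [← (hf3 s).1 hs]
  have hit0 : ∀ b, Region H bl t b → f (t b) = 3 ∧
      ∀ s, H.connectedComponentMk s = H.connectedComponentMk (t b) → f s = 3 → s = t b := by
    intro b hb
    refine ⟨ht3 b, fun s hs h => ?_⟩
    have h1 := (hf3 s).1 h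
    have h2 := (hgood b hb).2 (bl s) (by rw [← h1]; exact hs)
    rw [h1, h2]
  have k0 : (0 : Fin 4) ≠ 3 := by decide
  have k1 : (1 : Fin 4) ≠ 3 := by decide
  have k2 : (2 : Fin 4) ≠ 3 := by decide
  have hF0 : ∀ u s s', f u = 0 → H.Adj u s → H.Adj u s' → f s = 3 → f s' = 3 →
      Region H bl t (bl s) → s = s' := by
    intro u s s' hu h1 h2 h3 h4 h5
    rcases hst0.reg s h3 h5 with hC | ⟨b, hb, hs⟩
    · exact absurd h3 (hun0 _ hC s rfl)
    · have h6 := (hit0 b hb).2 s hs h3
      have h7 := (hit0 b hb).2 s' (((hcc h2).symm.trans (hcc h1)).trans hs) h4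
      rw [h6, h7]
  have hst1 := stage (k := 0) (kk := 0) rfl k0 hst0 hac hF0
  -- state 1
  set f1 := nf H bl t a c f 0 with hf1def
  have hit1 : ∀ b, Region H bl t b → (f1 (t b) = 3 ∧
      ∀ s, H.connectedComponentMk s = H.connectedComponentMk (t b) → f1 s = 3 → s = t b) ∨
      (f1 (t b) = 0 ∧
      ∀ s, H.connectedComponentMk s = H.connectedComponentMk (t b) → f1 s = 3 →
        H.Adj (t b) s) := by
    intro b hb
    obtain ⟨h1, h2⟩ := hit0 b hb
    by_cases hfl : Fl H bl t a c f 0 (bl (t b))
    · right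
      refine ⟨(nf_k k0).2 (Or.inr ⟨h1, hfl⟩), fun s hs h => ?_⟩
      rcases newthree k0 hst0 hac hs h with ⟨h3, h4⟩ | ⟨h3, w, h4, h5, h6, -, h7⟩
      · rw [h2 s hs h3] at h4
        exact absurd hfl h4
      · rw [← h2 w h7 h5]
        exact h6
    · left
      refine ⟨(nf_three k0).2 (Or.inl ⟨h1, hfl⟩), fun s hs h => ?_⟩
      rcases newthree k0 hst0 hac hs h with ⟨h3, h4⟩ | ⟨h3, w, h4, h5, h6, -, h7⟩
      · exact h2 s hs h3
      · rw [h2 w h7 h5] at h4
        exact absurd h4 hfl
  have hun1 : ∀ C, Un H t C → (∀ s, H.connectedComponentMk s = C → f1 s ≠ 3) ∨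
      ((∀ s, H.connectedComponentMk s = C → f1 s = 3 → s = a C) ∧ f1 (c C) = 0 ∧
        f1 (a C) = 3) := by
    intro C hC
    by_cases hex : ∃ s, H.connectedComponentMk s = C ∧ f1 s = 3
    · right
      obtain ⟨s, hs, h⟩ := hex
      have key : ∀ s, H.connectedComponentMk s = C → f1 s = 3 →
          s = a C ∧ f (a C) = 0 ∧ f (c C) = 0 := by
        intro s hs h
        rcases (nf_three k0).1 h with ⟨h1, -⟩ | ⟨h1, h2⟩
        · exact absurd h1 (hun0 C hC s hs)
        · exact (quiet k0 hst0.inj hac (hun0 C hC) hs h1 h2).2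
      obtain ⟨h1, h2, h3⟩ := key s hs h
      refine ⟨fun s hs h => (key s hs h).1, ?_, by rw [← h1]; exact h⟩
      apply (nf_k k0).2
      left
      refine ⟨h3, fun hfl => ?_⟩
      obtain ⟨e1, e2⟩ := hac C hC.1
      have := (quiet k0 hst0.inj hac (hun0 C hC) ((hcc e2).symm.trans e1) h3 hfl).2.1
      rw [this] at e2
      exact H.loopless.irrefl _ e2
    · left
      intro s hs h
      exact hex ⟨s, hs, h⟩
  have hF1 : ∀ u s s', f1 u = 1 → H.Adj u s → H.Adj u s' → f1 s = 3 → f1 s' = 3 →
      Region H bl t (bl s) → s = s' := by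
    intro u s s' hu h1 h2 h3 h4 h5
    rcases hst1.reg s h3 h5 with hC | ⟨b, hb, hs⟩
    · rcases hun1 _ hC with h6 | ⟨h6, -, -⟩
      · exact absurd h3 (h6 s rfl)
      · rw [h6 s rfl h3, h6 s' ((hcc h2).symm.trans (hcc h1)) h4]
    · have hs' : H.connectedComponentMk s' = H.connectedComponentMk (t b) :=
        ((hcc h2).symm.trans (hcc h1)).trans hs
      rcases hit1 b hb with ⟨h6, h7⟩ | ⟨h6, h7⟩
      · rw [h7 s hs h3, h7 s' hs' h4]
      · by_contra hne
        refine hns.c4 (t b) s u s' (h7 s hs h3) h1.symm h2 (h7 s' hs' h4).symm ?_ hne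
        intro h
        rw [h, hu] at h6
        exact absurd h6 (by decide)
  have hst2 := stage (k := 1) (kk := 1) rfl k1 hst1 hac hF1
  -- state 2
  set f2 := nf H bl t a c f1 1 with hf2def
  have hit2 : ∀ b, Region H bl t b → (f2 (t b) = 3 ∧
      ∀ s, H.connectedComponentMk s = H.connectedComponentMk (t b) → f2 s = 3 → s = t b) ∨
      ((f2 (t b) = 0 ∨ f2 (t b) = 1) ∧
      ∀ s, H.connectedComponentMk s = H.connectedComponentMk (t b) → f2 s = 3 →
        H.Adj (t b) s ∨ (f2 (t b) = 0 ∧ ∃ w, H.Adj (t b) w ∧ H.Adj w s ∧ s ≠ t b ∧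
          f2 w = 1)) := by
    intro b hb
    rcases hit1 b hb with ⟨h1, h2⟩ | ⟨h1, h2⟩
    · by_cases hfl : Fl H bl t a c f1 1 (bl (t b))
      · right
        refine ⟨Or.inr ((nf_k k1).2 (Or.inr ⟨h1, hfl⟩)), fun s hs h => ?_⟩
        left
        rcases newthree k1 hst1 hac hs h with ⟨h3, h4⟩ | ⟨h3, w, h4, h5, h6, -, h7⟩
        · rw [h2 s hs h3] at h4
          exact absurd hfl h4
        · rw [← h2 w h7 h5]
          exact h6
      · left
        refine ⟨(nf_three k1).2 (Or.inl ⟨h1, hfl⟩), fun s hs h => ?_⟩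
        rcases newthree k1 hst1 hac hs h with ⟨h3, h4⟩ | ⟨h3, w, h4, h5, h6, -, h7⟩
        · exact h2 s hs h3
        · rw [h2 w h7 h5] at h4
          exact absurd h4 hfl
    · right
      have h0 : f2 (t b) = 0 := by
        rw [hf2def, nf_other (by rw [h1]; decide) (by rw [h1]; decide)]
        exact h1
      refine ⟨Or.inl h0, fun s hs h => ?_⟩
      rcases newthree k1 hst1 hac hs h with ⟨h3, h4⟩ | ⟨h3, w, h4, h5, h6, h8, h7⟩
      · left
        exact h2 s hs h3
      · right
        refine ⟨h0, w, h2 w h7 h5, h6, ?_, h8⟩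
        intro hh
        rw [hh, h1] at h3
        exact absurd h3 (by decide)
  have hun2 : ∀ C, Un H t C → ∀ s s', H.connectedComponentMk s = C →
      H.connectedComponentMk s' = C → f2 s = 3 → f2 s' = 3 → s = s' := by
    intro C hC
    obtain ⟨e1, e2⟩ := hac C hC.1
    rcases hun1 C hC with h0 | ⟨h0, h1, h1'⟩
    · have key : ∀ s, H.connectedComponentMk s = C → f2 s = 3 → s = a C := by
        intro s hs h
        rcases (nf_three k1).1 h with ⟨h3, -⟩ | ⟨h3, h4⟩
        · exact absurd h3 (h0 s hs)
        · exact (quiet k1 hst1.inj hac h0 hs h3 h4).2.1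
      intro s s' hs hs' h h'
      rw [key s hs h, key s' hs' h']
    · by_cases hfl : Fl H bl t a c f1 1 (bl (a C))
      · have key : ∀ s, H.connectedComponentMk s = C → f2 s = 3 → H.Adj (a C) s ∧ s ≠ c C := by
          intro s hs h
          rcases (nf_three k1).1 h with ⟨h3, h4⟩ | ⟨h3, h4⟩
          · rw [h0 s hs h3] at h4
            exact absurd hfl h4
          · rcases fl_cases hst1.inj h3 h4 with ⟨C', hC', g1, g2, -⟩ | ⟨w, g1, g2, g3⟩
            · have : C' = C := by
                rw [← hs, g1]; exact (hac C' hC'.1).1.symm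
              subst this
              rw [h1'] at g2
              exact absurd g2 (by decide)
            · have := h0 w ((hcc g3).trans hs) g2
              rw [this] at g3
              refine ⟨g3, fun hh => ?_⟩
              rw [hh, h1] at h3
              exact absurd h3 (by decide)
        intro s s' hs hs' h h'
        obtain ⟨g1, g2⟩ := key s hs h
        obtain ⟨g3, g4⟩ := key s' hs' h'
        rcases hdeg _ _ _ _ g1 g3 e2 with g | g | g
        · exact g
        · exact absurd g g2
        · exact absurd g g4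
      · have key : ∀ s, H.connectedComponentMk s = C → f2 s = 3 → s = a C := by
          intro s hs h
          rcases (nf_three k1).1 h with ⟨h3, h4⟩ | ⟨h3, h4⟩
          · exact h0 s hs h3
          · rcases fl_cases hst1.inj h3 h4 with ⟨C', hC', g1, g2, -⟩ | ⟨w, g1, g2, g3⟩
            · have : C' = C := by
                rw [← hs, g1]; exact (hac C' hC'.1).1.symm
              subst this
              rw [h1'] at g2
              exact absurd g2 (by decide)
            · have := h0 w ((hcc g3).trans hs) g2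
              rw [this] at g1
              exact absurd g1 hfl
        intro s s' hs hs' h h'
        rw [key s hs h, key s' hs' h']
  have hF2 : ∀ u s s', f2 u = 2 → H.Adj u s → H.Adj u s' → f2 s = 3 → f2 s' = 3 →
      Region H bl t (bl s) → s = s' := by
    intro u s s' hu h1 h2 h3 h4 h5
    rcases hst2.reg s h3 h5 with hC | ⟨b, hb, hs⟩
    · exact hun2 _ hC s s' rfl ((hcc h2).symm.trans (hcc h1)) h3 h4
    · have hs' : H.connectedComponentMk s' = H.connectedComponentMk (t b) :=
        ((hcc h2).symm.trans (hcc h1)).trans hs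
      rcases hit2 b hb with ⟨h6, h7⟩ | ⟨h6, h7⟩
      · rw [h7 s hs h3, h7 s' hs' h4]
      · by_contra hne
        have hcol : ∀ x y : V, ∀ p q : Fin 4, f2 x = p → f2 y = q → p ≠ q → x ≠ y := by
          intro x y p q hx hy hpq hxy
          rw [hxy, hy] at hx
          exact hpq hx.symm
        have htu : t b ≠ u := by
          rcases h6 with h6 | h6
          · exact hcol _ _ _ _ h6 hu (by decide)
          · exact hcol _ _ _ _ h6 hu (by decide)
        have hts : t b ≠ s := by
          rcases h6 with h6 | h6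
          · exact hcol _ _ _ _ h6 h3 (by decide)
          · exact hcol _ _ _ _ h6 h3 (by decide)
        have hts' : t b ≠ s' := by
          rcases h6 with h6 | h6
          · exact hcol _ _ _ _ h6 h4 (by decide)
          · exact hcol _ _ _ _ h6 h4 (by decide)
        have hus : u ≠ s := hcol _ _ _ _ hu h3 (by decide)
        have hus' : u ≠ s' := hcol _ _ _ _ hu h4 (by decide)
        rcases h7 s hs h3 with g | ⟨g0, w, g1, g2, g3, g4⟩
        · rcases h7 s' hs' h4 with g' | ⟨g0', w', g1', g2', g3', g4'⟩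
          · exact hns.c4 (t b) s u s' g h1.symm h2 g'.symm htu hne
          · have w1 : w' ≠ u := hcol _ _ _ _ g4' hu (by decide)
            have w2 : w' ≠ s := hcol _ _ _ _ g4' h3 (by decide)
            have w3 : w' ≠ s' := hcol _ _ _ _ g4' h4 (by decide)
            have w4 : w' ≠ t b := g1'.ne'
            refine hns.c5 (t b) s u s' w' g h1.symm h2 g2'.symm g1'.symm ?_
            simp only [List.nodup_cons, List.mem_cons, List.not_mem_nil, or_false, not_or,
              List.nodup_nil, and_true, not_false_eq_true]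
            exact ⟨⟨hts, htu, hts', w4.symm⟩, ⟨hus.symm, hne, w2.symm⟩, ⟨hus', w1.symm⟩,
              w3.symm⟩
        · have w1 : w ≠ u := hcol _ _ _ _ g4 hu (by decide)
          have w2 : w ≠ s := hcol _ _ _ _ g4 h3 (by decide)
          have w3 : w ≠ s' := hcol _ _ _ _ g4 h4 (by decide)
          have w4 : w ≠ t b := g1.ne'
          rcases h7 s' hs' h4 with g' | ⟨g0', w', g1', g2', g3', g4'⟩
          · refine hns.c5 (t b) s' u s w g' h2.symm h1 g2.symm g1.symm ?_
            simp only [List.nodup_cons, List.mem_cons, List.not_mem_nil, or_false, not_or,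
              List.nodup_nil, and_true, not_false_eq_true]
            exact ⟨⟨hts', htu, hts, w4.symm⟩, ⟨hus'.symm, Ne.symm hne, w3.symm⟩,
              ⟨hus, w1.symm⟩, w2.symm⟩
          · have v1 : w' ≠ u := hcol _ _ _ _ g4' hu (by decide)
            have v2 : w' ≠ s := hcol _ _ _ _ g4' h3 (by decide)
            have v3 : w' ≠ s' := hcol _ _ _ _ g4' h4 (by decide)
            have v4 : w' ≠ t b := g1'.ne'
            have hww : w ≠ w' := by
              intro hh
              subst hh
              rcases hdeg w (t b) s s' g1.symm g2 g2' with h | h | h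
              · exact hts h
              · exact hts' h
              · exact hne h
            refine hns.c6 (t b) w s u s' w' g1 g2 h1.symm h2 g2'.symm g1'.symm ?_
            simp only [List.nodup_cons, List.mem_cons, List.not_mem_nil, or_false, not_or,
              List.nodup_nil, and_true, not_false_eq_true]
            exact ⟨⟨w4.symm, hts, htu, hts', v4.symm⟩, ⟨w2, w1, w3, hww⟩,
              ⟨hus.symm, hne, v2.symm⟩, ⟨hus', v1.symm⟩, v3.symm⟩
  have hst3 := stage (k := 2) (kk := 2) rfl k2 hst2 hac hF2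
  refine ⟨_, ?_, hst3.inj⟩
  intro u v huv h
  obtain ⟨C, hC, hq, hle, h4⟩ := hst3.conf u v huv h
  have hu3 : nf H bl t a c f2 2 u ≠ 3 := by
    apply hq
    rcases h4 with ⟨h4, -⟩ | ⟨h4, -⟩
    · rw [h4]; exact (hac C hC.1).1
    · rw [h4, ← cc_adj (hac C hC.1).2]; exact (hac C hC.1).1
  apply hu3
  apply Fin.ext
  have := (nf H bl t a c f2 2 u).2
  show ((nf H bl t a c f2 2 u : Fin 4) : ℕ) = 3
  omega

end Run7.h493.Main
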