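import Mathlib

set_option autoImplicit false
set_option linter.unusedSectionVars false

/-! Padding blocks of at most four vertices by isolated vertices, and cycles as walks. -/

namespace Run7.h493.Pad

open Finset

variable {V B : Type*} [Fintype V] [DecidableEq V] [Fintype B] [DecidableEq B]

/-- the padded graph -/
def PG (G : SimpleGraph V) (W : Type*) : SimpleGraph (V ⊕ W) where
  Adj x y := ∃ u v, x = Sum.inl u ∧ y = Sum.inl v ∧ G.Adj u v
  symm := ⟨fun x y ⟨u, v, h1, h2, h3⟩ => ⟨v, u, h2, h1, h3.symm⟩⟩
  loopless := ⟨fun x ⟨u, v, h1, h2, h3⟩ => by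
    rw [h1] at h2
    have := Sum.inl_injective h2
    subst this
    exact G.loopless.irrefl _ h3⟩

lemma pg_inl {G : SimpleGraph V} {W : Type*} {x y : V ⊕ W} (h : (PG G W).Adj x y) :
    ∃ u v, x = Sum.inl u ∧ y = Sum.inl v ∧ G.Adj u v := h

theorem pad (f : V → B) (hf : ∀ i, (Finset.univ.filter (fun v => f v = i)).card ≤ 4) :
    ∃ (W : Type) (_ : Fintype W) (_ : DecidableEq W) (g : V ⊕ W → B),
      (∀ v, g (Sum.inl v) = f v) ∧
      ∀ b, (Finset.univ.filter (fun x => g x = b)).card = 4 := by
  classical
  obtain ⟨e⟩ := Fintype.truncEquivFin B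
  let m : Fin (Fintype.card B) → ℕ := fun i =>
    4 - (Finset.univ.filter (fun v => f v = e.symm i)).card
  refine ⟨Σ i : Fin (Fintype.card B), Fin (m i), inferInstance, inferInstance,
    Sum.elim f (fun p => e.symm p.1), fun v => rfl, ?_⟩
  intro b
  have h1 : (Finset.univ.filter (fun x : V ⊕ (Σ i : Fin (Fintype.card B), Fin (m i)) =>
      Sum.elim f (fun p => e.symm p.1) x = b)) =
      (Finset.univ.filter (fun v => f v = b)).disjSum
        (Finset.univ.filter (fun p : (Σ i : Fin (Fintype.card B), Fin (m i)) =>
          e.symm p.1 = b)) := by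
    ext x
    rcases x with x | x <;> simp
  rw [h1, Finset.card_disjSum]
  have h2 : (Finset.univ.filter (fun p : (Σ i : Fin (Fintype.card B), Fin (m i)) =>
      e.symm p.1 = b)) = (Finset.univ : Finset (Fin (m (e b)))).map
        (Function.Embedding.sigmaMk (e b)) := by
    ext ⟨i, p⟩
    simp only [Finset.mem_filter, Finset.mem_univ, true_and, Finset.mem_map,
      Function.Embedding.sigmaMk_apply]
    constructor
    · intro h
      have hi : i = e b := by rw [← h, Equiv.apply_symm_apply]
      subst hi
      exact ⟨p, rfl⟩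
    · rintro ⟨q, hq⟩
      have := congrArg Sigma.fst hq
      simp only at this
      rw [← this, Equiv.symm_apply_apply]
  rw [h2, Finset.card_map, Finset.card_univ, Fintype.card_fin]
  have h3 := hf b
  simp only [m, Equiv.symm_apply_apply]
  omega

end Run7.h493.Pad
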