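import Mathlib
import Pool.Agent.Run7.h493.Main
import Pool.Agent.Run7.h493.Pad

set_option autoImplicit false

/-! From cycles given as walks to cycles given by their vertices. -/

namespace Run7.h493.Walks

open SimpleGraph

variable {V : Type*} {G : SimpleGraph V}

theorem cyc4 (a b c d : V) (h1 : G.Adj a b) (h2 : G.Adj b c) (h3 : G.Adj c d) (h4 : G.Adj d a)
    (hac : a ≠ c) (hbd : b ≠ d) :
    ∃ w : G.Walk a a, w.IsCycle ∧ w.length = 4 := by
  refine ⟨Walk.cons h1 (Walk.cons h2 (Walk.cons h3 (Walk.cons h4 Walk.nil))), ?_, rfl⟩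
  rw [Walk.cons_isCycle_iff]
  have e1 := h1.ne
  have e2 := h2.ne
  have e3 := h3.ne
  have e4 := h4.ne
  refine ⟨?_, ?_⟩
  · simp [Walk.isPath_def, Walk.support_cons]
    refine ⟨⟨e2, hbd, e1.symm⟩, ⟨e3, hac.symm⟩, e4⟩
  · simp
    tauto

theorem cyc5 (a b c d e : V) (h1 : G.Adj a b) (h2 : G.Adj b c) (h3 : G.Adj c d) (h4 : G.Adj d e)
    (h5 : G.Adj e a) (hn : [a, b, c, d, e].Nodup) :
    ∃ w : G.Walk a a, w.IsCycle ∧ w.length = 5 := by
  refine ⟨Walk.cons h1 (Walk.cons h2 (Walk.cons h3 (Walk.cons h4 (Walk.cons h5 Walk.nil)))), ?_, rfl⟩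
  rw [Walk.cons_isCycle_iff]
  simp only [List.nodup_cons, List.mem_cons, List.not_mem_nil, or_false, not_or,
              List.nodup_nil, and_true, not_false_eq_true] at hn
  obtain ⟨⟨n1, n2, n3, n4⟩, ⟨n5, n6, n7⟩, ⟨n8, n9⟩, n10⟩ := hn
  refine ⟨?_, ?_⟩
  · simp [Walk.isPath_def, Walk.support_cons]
    refine ⟨⟨n5, n6, n7, Ne.symm n1⟩, ⟨n8, n9, Ne.symm n2⟩, ⟨n10, Ne.symm n3⟩, Ne.symm n4⟩
  · simp
    tauto

theorem cyc6 (a b c d e g : V) (h1 : G.Adj a b) (h2 : G.Adj b c) (h3 : G.Adj c d) (h4 : G.Adj d e)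
    (h5 : G.Adj e g) (h6 : G.Adj g a) (hn : [a, b, c, d, e, g].Nodup) :
    ∃ w : G.Walk a a, w.IsCycle ∧ w.length = 6 := by
  refine ⟨Walk.cons h1 (Walk.cons h2 (Walk.cons h3 (Walk.cons h4 (Walk.cons h5
    (Walk.cons h6 Walk.nil))))), ?_, rfl⟩
  rw [Walk.cons_isCycle_iff]
  simp only [List.nodup_cons, List.mem_cons, List.not_mem_nil, or_false, not_or,
              List.nodup_nil, and_true, not_false_eq_true] at hn
  obtain ⟨⟨n1, n2, n3, n4, n5⟩, ⟨n6, n7, n8, n9⟩, ⟨n10, n11, n12⟩, ⟨n13, n14⟩, n15⟩ := hn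
  refine ⟨?_, ?_⟩
  · simp [Walk.isPath_def, Walk.support_cons]
    refine ⟨⟨n6, n7, n8, n9, Ne.symm n1⟩, ⟨n10, n11, n12, Ne.symm n2⟩, ⟨n13, n14, Ne.symm n3⟩,
      ⟨n15, Ne.symm n4⟩, Ne.symm n5⟩
  · simp
    tauto

theorem noShort (h : ∀ (v : V) (w : G.Walk v v), w.IsCycle →
    w.length ≠ 4 ∧ w.length ≠ 5 ∧ w.length ≠ 6) : Main.NoShort G := by
  refine ⟨?_, ?_, ?_⟩
  · intro a b c d h1 h2 h3 h4 h5 h6
    obtain ⟨w, hw, hl⟩ := cyc4 a b c d h1 h2 h3 h4 h5 h6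
    exact (h a w hw).1 hl
  · intro a b c d e h1 h2 h3 h4 h5 hn
    obtain ⟨w, hw, hl⟩ := cyc5 a b c d e h1 h2 h3 h4 h5 hn
    exact (h a w hw).2.1 hl
  · intro a b c d e g h1 h2 h3 h4 h5 h6 hn
    obtain ⟨w, hw, hl⟩ := cyc6 a b c d e g h1 h2 h3 h4 h5 h6 hn
    exact (h a w hw).2.2 hl

/-- maximum degree at most two, in terms of three neighbours -/
theorem deg2 {V : Type*} [Fintype V] [DecidableEq V] (G : SimpleGraph V) [DecidableRel G.Adj]
    (h : G.maxDegree ≤ 2) (u a b c : V) (ha : G.Adj u a) (hb : G.Adj u b) (hc : G.Adj u c) :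
    a = b ∨ a = c ∨ b = c := by
  by_contra hcon
  push Not at hcon
  have h1 : ({a, b, c} : Finset V) ⊆ G.neighborFinset u := by
    intro x hx
    simp only [Finset.mem_insert, Finset.mem_singleton] at hx
    rw [SimpleGraph.mem_neighborFinset]
    rcases hx with rfl | rfl | rfl <;> assumption
  have h2 := Finset.card_le_card h1
  rw [Finset.card_eq_three.2 ⟨a, b, c, hcon.1, hcon.2.1, hcon.2.2, rfl⟩] at h2
  have h3 := G.degree_le_maxDegree u
  rw [SimpleGraph.card_neighborFinset_eq_degree] at h2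
  omega

/-- blocks of at most four vertices -/
theorem block4 {V B : Type*} [Fintype V] [DecidableEq V] [Fintype B] [DecidableEq B]
    (G : SimpleGraph V)
    (hdeg : ∀ u a b c, G.Adj u a → G.Adj u b → G.Adj u c → a = b ∨ a = c ∨ b = c)
    (hns : Main.NoShort G) (f : V → B)
    (hf : ∀ i, (Finset.univ.filter (fun v => f v = i)).card ≤ 4) :
    ∃ c : V → Fin 4, (∀ u v, G.Adj u v → c u ≠ c v) ∧ (∀ u v, f u = f v → c u = c v → u = v) := by
  obtain ⟨W, _, _, g, hg, hc⟩ := Pad.pad f hf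
  obtain ⟨c, h1, h2⟩ := Main.main (H := Pad.PG G W) hc (by
      rintro u a b c ⟨u1, a1, e1, e2, e3⟩ ⟨u2, b1, e4, e5, e6⟩ ⟨u3, c1, e7, e8, e9⟩
      have f1 : u2 = u1 := Sum.inl_injective (e4.symm.trans e1)
      have f2 : u3 = u1 := Sum.inl_injective (e7.symm.trans e1)
      rw [f1] at e6
      rw [f2] at e9
      rw [e2, e5, e8]
      rcases hdeg u1 a1 b1 c1 e3 e6 e9 with h | h | h
      · left; rw [h]
      · right; left; rw [h]
      · right; right; rw [h]) (by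
      constructor
      · rintro a b c d ⟨a1, b1, rfl, rfl, g1⟩ ⟨b2, c1, e1, rfl, g2⟩ ⟨c2, d1, e2, rfl, g3⟩
          ⟨d2, a2, e3, e4, g4⟩ n1 n2
        have e1 := Sum.inl_injective e1
        have e2 := Sum.inl_injective e2
        have e3 := Sum.inl_injective e3
        have e4 := Sum.inl_injective e4
        subst e1 e2 e3 e4
        exact hns.c4 _ _ _ _ g1 g2 g3 g4 (fun h => n1 (by rw [h])) (fun h => n2 (by rw [h]))
      · rintro a b c d e ⟨a1, b1, rfl, rfl, g1⟩ ⟨b2, c1, e1, rfl, g2⟩ ⟨c2, d1, e2, rfl, g3⟩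
          ⟨d2, f1, e3, rfl, g4⟩ ⟨f2, a2, e4, e5, g5⟩ hn
        have e1 := Sum.inl_injective e1
        have e2 := Sum.inl_injective e2
        have e3 := Sum.inl_injective e3
        have e4 := Sum.inl_injective e4
        have e5 := Sum.inl_injective e5
        subst e1 e2 e3 e4 e5
        refine hns.c5 _ _ _ _ _ g1 g2 g3 g4 g5 ?_
        have := List.Nodup.of_map (Sum.inl : V → V ⊕ W) (l := [a1, b1, c1, d1, f1]) hn
        exact this
      · rintro a b c d e k ⟨a1, b1, rfl, rfl, g1⟩ ⟨b2, c1, e1, rfl, g2⟩ ⟨c2, d1, e2, rfl, g3⟩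
          ⟨d2, f1, e3, rfl, g4⟩ ⟨f2, k1, e4, rfl, g5⟩ ⟨k2, a2, e5, e6, g6⟩ hn
        have e1 := Sum.inl_injective e1
        have e2 := Sum.inl_injective e2
        have e3 := Sum.inl_injective e3
        have e4 := Sum.inl_injective e4
        have e5 := Sum.inl_injective e5
        have e6 := Sum.inl_injective e6
        subst e1 e2 e3 e4 e5 e6
        refine hns.c6 _ _ _ _ _ _ g1 g2 g3 g4 g5 g6 ?_
        have := List.Nodup.of_map (Sum.inl : V → V ⊕ W) (l := [a1, b1, c1, d1, f1, k1]) hn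
        exact this)
  refine ⟨fun v => c (Sum.inl v), ?_, ?_⟩
  · intro u v huv
    exact h1 _ _ ⟨u, v, rfl, rfl, huv⟩
  · intro u v huv h
    exact Sum.inl_injective (h2 _ _ (by rw [hg, hg, huv]) h)

end Run7.h493.Walks
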